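import Pool.Agent.H10.T2.Base
import Pool.Agent.H10.T2.Targets1
import Pool.Agent.H68.T2.OT
import Pool.Agent.H87.T2.TG
import Pool.Agent.H18.T2.CC
import Pool.Agent.H51.T2.GA
import Pool.Agent.H42.T2.VM
import Pool.Agent.H58.T2.ZE
import Pool.Agent.H59.T2.ZF
import Pool.Agent.H34.T2.SC
import Pool.Agent.H34.T2.SV
import Pool.Agent.H46.T2.QD
import Pool.Agent.H33.T2.QE
import Pool.Agent.H33.T2.CX
import Pool.Agent.H33.T2.DD
import Pool.Agent.H54.T2.QG

/-!
# MP_7500ea_al, board fi_modules: closed facts of the library of character theory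

`AMc` (Pool/Agent/H3/AM/Defs, Targets): `Irr`, `IrrS N` (irreducible characters of the subgroup `N`
of the ambient finite group, extended by zero), `Over`, `cj`, `stab`, `ext0`, `IsChar`.
`AMt` (Pool/Agent/H10/T2/Defs, Targets1): `NIn`, `Trp` (character triples).
-/

open AMc AMe AMt

namespace FI.Lib

theorem lA1 : AMc.T_A1 := Pool.Agent.H77.EA.All.fA1
theorem lA2 : AMc.T_A2 := Pool.Agent.H77.EA.All.fA2
theorem lA3 : AMc.T_A3 := Pool.Agent.H77.EA.All.fA3
theorem lA4 : AMc.T_A4 := Pool.Agent.H77.EA.All.fA4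
theorem lS1 : AMc.T_S1 := Pool.Agent.H77.EA.All.fS1
theorem lS2 : AMc.T_S2 := Pool.Agent.H77.EA.All.fS2
theorem lS3 : AMc.T_S3 := Pool.Agent.H77.EA.All.fS3
theorem lS4 : AMc.T_S4 := Pool.Agent.H77.EA.All.fS4
theorem lS7 : AMc.T_S7 := Pool.Agent.H77.EA.All.fS7
theorem lS8 : AMc.T_S8 := Pool.Agent.H77.EA.All.fS8
theorem lS9 : AMc.T_S9 := Pool.Agent.H77.EA.All.fS9
theorem lS10 : AMc.T_S10 := Pool.Agent.H68.EA.sa10 Pool.Agent.H77.EA.All.fA3
theorem lE1 : AMc.T_E1 := Pool.Agent.H77.EA.All.fE1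
theorem lE2 : AMc.T_E2 := Pool.Agent.H77.EA.All.fE2
theorem lE3 : AMc.T_E3 := AMt.fE3
theorem lE4 : AMc.T_E4 := Pool.Agent.H77.EA.All.fE4
theorem lE5 : AMc.T_E5 := AMt.fE5
theorem lE7 : AMc.T_E7 := AMt.fE7
theorem lE8 : AMc.T_E8 := AMt.fE8
theorem lK1 : AMc.T_K1 := Pool.Agent.H77.EA.All.fK1
/-- Gallagher's theorem for linear characters -/
theorem lXG : AMe.T_XG := Pool.Agent.H77.EA.All.fXG
/-- transitivity of `Over` -/
theorem lOT : AMt.T_OT := Pool.Agent.H68.T2.ot
/-- Schur relations -/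
theorem lSC : AMt.T_SC := Pool.Agent.H34.T2.sc
/-- existence of character triples -/
theorem lTG : AMt.T_TG := AMt.tg
theorem lVM : AMt.T_VM := Pool.Agent.H42.T2.vm
theorem lZE : AMt.T_ZE := Pool.Agent.H58.T2.ZE.ze
theorem lZF : AMt.T_ZF := Pool.Agent.H59.T2.zf lZE
/-- the Clifford correspondence -/
theorem lCC : AMt.T_CC := Pool.Agent.H18.T2.CC.cc lVM lZE lZF lOT
/-- Gallagher's theorem for character triples -/
theorem lGA : AMt.T_GA := Pool.Agent.H51.T2.ga lZF lSC
/-- inflation of irreducible characters -/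
theorem lQI : AMe.T_QI := Pool.Agent.H77.EA.All.fQI
/-- the factor group `Q` of a character triple, a central extension of `U / K` -/
theorem lQD : AMt.T_QD := _root_.H46.T2.qd
/-- correspondence between the characters of `V` over `θ` and characters of `V* ≤ Q` -/
theorem lQE : AMt.T_QE := Pool.Agent.H33.T2.qe lGA
/-- group theory of the factor group -/
theorem lQG : AMt.T_QG := _root_.Pool.Agent.H54.T2.QG.qg
/-- extension to cyclic factor groups -/
theorem lCX : AMt.T_CX := Pool.Agent.H33.T2.cx lTG lGA lSC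
theorem lSV : AMt.T_SV := Pool.Agent.H34.T2.sv lSC
/-- the degree of a character above divides -/
theorem lDD : AMt.T_DD := Pool.Agent.H33.T2.dd lSV lGA lCC lTG

end FI.Lib
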