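import Pool.Agent.H6.FI.Defs

/-!
# MP_7500ea_al, board fi_modules: targets A (solvable linear groups)
-/

open scoped Classical

namespace FI

/-! ## Statements proved by induction -/

/-- the bound of Pálfy and Wolf with the exponent `9/4`, for `|V| ≤ n` -/
def PPW (n : ℕ) : Prop := ∀ (R V : Type) [Group R] [Finite R] [AddCommGroup V] [Finite V]
  (ρ : R →* AddMonoid.End V), Group.IsSolvable R → Nat.card V ≤ n → Nontrivial V → CR ρ ⊤ ⊤ →
  c0 * (Ck ρ ⊤).index ≤ (Nat.card V : ℝ) ^ ((9 : ℝ) / 4)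

/-- the same for a subgroup acting on an invariant subgroup -/
def APW (n : ℕ) : Prop := ∀ (R V : Type) [Group R] [Finite R] [AddCommGroup V] [Finite V]
  (ρ : R →* AddMonoid.End V) (B : Subgroup R) (W : AddSubgroup V), Group.IsSolvable R →
  Nat.card W ≤ n → W ≠ ⊥ → Inv ρ B W → CR ρ B W →
  c0 * (Ck ρ W).relIndex B ≤ (Nat.card W : ℝ) ^ ((9 : ℝ) / 4)

/-- large orbits, for `|V| ≤ n` -/
def PLO (n : ℕ) : Prop := ∀ (R V : Type) [Group R] [Finite R] [AddCommGroup V] [Finite V]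
  (ρ : R →* AddMonoid.End V), Group.IsSolvable R → Nat.card V ≤ n → CR ρ ⊤ ⊤ →
  (∃ r v, ρ r v ≠ v) →
  ∃ x : V, c0 * (Ck ρ ⊤).index ≤ ((St ρ x).index : ℝ) ^ ((91 : ℝ) / 25)

/-- the same for a subgroup acting on an invariant subgroup -/
def ALO (n : ℕ) : Prop := ∀ (R V : Type) [Group R] [Finite R] [AddCommGroup V] [Finite V]
  (ρ : R →* AddMonoid.End V) (B : Subgroup R) (W : AddSubgroup V), Group.IsSolvable R →
  Nat.card W ≤ n → Inv ρ B W → CR ρ B W → (∃ r ∈ B, ∃ v ∈ W, ρ r v ≠ v) →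
  ∃ x ∈ W, c0 * (Ck ρ W).relIndex B ≤ ((St ρ x).relIndex B : ℝ) ^ ((91 : ℝ) / 25)

/-! ## Complete reducibility -/

/-- TRP: transfer to subgroups (Pálfy–Wolf) -/
def T_TRP : Prop := ∀ n, PPW n → APW n

/-- TRL: transfer to subgroups (large orbits) -/
def T_TRL : Prop := ∀ n, PLO n → ALO n

/-- CRW: invariant subgroups -/
def T_CRW : Prop := ∀ (R V : Type) [Group R] [AddCommGroup V]
  (ρ : R →* AddMonoid.End V) (B : Subgroup R) (W X : AddSubgroup V), CR ρ B W → X ≤ W →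
  Inv ρ B X → CR ρ B X

/-- CRN: Clifford's theorem, restriction to normal subgroups -/
def T_CRN : Prop := ∀ (R V : Type) [Group R] [AddCommGroup V] [Finite V]
  (ρ : R →* AddMonoid.End V) (B K : Subgroup R) (W : AddSubgroup V), Inv ρ B W → CR ρ B W →
  K ≤ B → (∀ b ∈ B, ∀ k ∈ K, b * k * b⁻¹ ∈ K) → CR ρ K W

/-- TWO: two complementary invariant subgroups -/
def T_TWO : Prop := ∀ (R V : Type) [Group R] [Finite R] [AddCommGroup V]
  (ρ : R →* AddMonoid.End V) (W W' : AddSubgroup V), Inv ρ ⊤ W → Inv ρ ⊤ W' → W ⊓ W' = ⊥ →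
  W ⊔ W' = ⊤ →
  (Ck ρ ⊤).index = (Ck ρ W).index * (Ck ρ W').relIndex (Ck ρ W) ∧
  ∀ x ∈ W, ∀ y ∈ W', (St ρ x).index * (St ρ y).relIndex (Ck ρ W) ≤ (St ρ (x + y)).index

/-! ## Imprimitive groups -/

/-- MRG: merging blocks -/
def T_MRG : Prop := ∀ (R V : Type) [Group R] [Finite R] [AddCommGroup V] [Finite V]
  (ρ : R →* AddMonoid.End V) (H : Subgroup R) (W : R ⧸ H → AddSubgroup V), Imp ρ H W →
  ∃ (H' : Subgroup R) (W' : R ⧸ H' → AddSubgroup V), Imp ρ H' W' ∧ IsCoatom H'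

/-- IMB: basic facts on systems of imprimitivity -/
def T_IMB : Prop := ∀ (R V : Type) [Group R] [Finite R] [AddCommGroup V] [Finite V]
  (ρ : R →* AddMonoid.End V) (H : Subgroup R) (W : R ⧸ H → AddSubgroup V), Imp ρ H W →
  Nontrivial V →
  (∀ c, W c ≠ ⊥) ∧ (∀ c, Nat.card (W c) < Nat.card V) ∧
  (∀ c, Inv ρ H.normalCore (W c)) ∧ Ck ρ ⊤ ≤ H.normalCore ∧
  ∏ᶠ c, Nat.card (W c) = Nat.card V

/-- CHP: the kernel of the action on the blocks, Pálfy–Wolf -/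
def T_CHP : Prop := ∀ (R V ι : Type) [Group R] [Finite R] [AddCommGroup V] [Finite V] [Finite ι]
  (ρ : R →* AddMonoid.End V) (B : Subgroup R) (W : ι → AddSubgroup V) (b : ι → ℝ),
  iSup W = ⊤ → (∀ c, Inv ρ B (W c)) →
  (∀ c, ∀ B' : Subgroup R, B' ≤ B → (∀ x ∈ B, ∀ y ∈ B', x * y * x⁻¹ ∈ B') →
    ((Ck ρ (W c)).relIndex B' : ℝ) ≤ b c) →
  ((Ck ρ ⊤).relIndex B : ℝ) ≤ ∏ᶠ c, b c

/-- CHL: the kernel of the action on the blocks, large orbits -/
def T_CHL : Prop := ∀ (R V ι : Type) [Group R] [Finite R] [AddCommGroup V] [Finite V] [Finite ι]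
  (ρ : R →* AddMonoid.End V) (B : Subgroup R) (W : ι → AddSubgroup V), iSup W = ⊤ →
  (∀ c, Inv ρ B (W c)) →
  (∀ c, ∀ B' : Subgroup R, B' ≤ B → (∀ x ∈ B, ∀ y ∈ B', x * y * x⁻¹ ∈ B') →
    (∃ r ∈ B', ∃ v ∈ W c, ρ r v ≠ v) →
    ∃ x ∈ W c, c0 * (Ck ρ (W c)).relIndex B' ≤ ((St ρ x).relIndex B' : ℝ) ^ ((91 : ℝ) / 25)) →
  (∃ r ∈ B, ∃ v, ρ r v ≠ v) →
  ∃ (A : Finset ι) (x : ι → V), A.Nonempty ∧ (∀ c ∈ A, x c ∈ W c ∧ x c ≠ 0) ∧
    c0 ^ A.card * (Ck ρ ⊤).relIndex B ≤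
      ((⨅ c ∈ A, St ρ (x c)).relIndex B : ℝ) ^ ((91 : ℝ) / 25)

/-- STB: the stabiliser of a vector supported on the blocks in `A` -/
def T_STB : Prop := ∀ (R V : Type) [Group R] [Finite R] [AddCommGroup V] [Finite V]
  (ρ : R →* AddMonoid.End V) (H : Subgroup R) (W : R ⧸ H → AddSubgroup V), Imp ρ H W →
  ∀ (A : Finset (R ⧸ H)) (x : R ⧸ H → V), (∀ c ∈ A, x c ∈ W c ∧ x c ≠ 0) →
  (StA A).index *
      (⨅ c ∈ A, St ρ (x c)).relIndex H.normalCore ≤ (St ρ (∑ c ∈ A, x c)).index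

/-- the socle of a primitive solvable permutation group: `H` is a maximal subgroup of `R` -/
structure Soc {R : Type} [Group R] (H N : Subgroup R) : Prop where
  nor : N.Normal
  le : H.normalCore ≤ N
  sup : N ⊔ H = ⊤
  inf : N ⊓ H = H.normalCore
  com : ∀ a ∈ N, ∀ b ∈ N, a * b * a⁻¹ * b⁻¹ ∈ H.normalCore
  cen : ∀ r : R, (∀ a ∈ N, r * a * r⁻¹ * a⁻¹ ∈ H.normalCore) → r ∈ N
  min : ∀ L : Subgroup R, L.Normal → H.normalCore ≤ L → L ≤ N → L = H.normalCore ∨ L = N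
  ppw : ∃ p k : ℕ, p.Prime ∧ 0 < k ∧ H.normalCore.relIndex N = p ^ k

/-- AF1: existence of the socle -/
def T_AF1 : Prop := ∀ (R : Type) [Group R] [Finite R] (H : Subgroup R), Group.IsSolvable R →
  IsCoatom H → ∃ N : Subgroup R, Soc H N

/-- AF3: stabilisers of sets -/
def T_AF3 : Prop := ∀ (R : Type) [Group R] [Finite R] (H N : Subgroup R) (p k : ℕ), Soc H N →
  p.Prime → 0 < k → H.normalCore.relIndex N = p ^ k →
  H.index = p ^ k ∧ ∀ A : Finset (R ⧸ H), A.Nonempty → (∃ c, c ∉ A) → ∃ j < k, p ^ j ≤ A.card ∧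
      p ^ (k - j) ≤ (StA A).index

/-- AFF: a solvable group with a maximal subgroup (primitive solvable permutation groups) -/
def T_AFF : Prop := ∀ (R : Type) [Group R] [Finite R] (H : Subgroup R), Group.IsSolvable R →
  IsCoatom H → ∃ (V : Type) (_ : AddCommGroup V) (_ : Finite V) (ρ : R →* AddMonoid.End V)
    (p k : ℕ), p.Prime ∧ 0 < k ∧ Nat.card V = p ^ k ∧ H.index = p ^ k ∧ Irred ρ ∧
    H.normalCore.index = (Ck ρ ⊤).index * Nat.card V ∧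
    ∀ A : Finset (R ⧸ H), A.Nonempty → (∃ c, c ∉ A) → ∃ j < k, p ^ j ≤ A.card ∧
      p ^ (k - j) ≤ (StA A).index

/-- FAC: the trivial bound -/
def T_FAC : Prop := ∀ (R : Type) [Group R] [Finite R] (H : Subgroup R),
  H.normalCore.index ≤ (H.index).factorial

/-- ND: numerical: Dixon's bound in the primitive case -/
def T_ND : Prop := ∀ n m : ℕ, 2 ≤ n → m ≤ n.factorial →
  c0 * m ≤ (n : ℝ) ^ ((13 : ℝ) / 4) → (m : ℝ) ≤ c0 ^ (n - 1)

/-- NS: numerical: proper subsets -/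
def T_NS : Prop := ∀ (p k j a m i : ℕ), p.Prime → j < k → p ^ j ≤ a → p ^ (k - j) ≤ i →
  c0 * m ≤ ((p ^ k : ℕ) : ℝ) ^ ((13 : ℝ) / 4) →
  (m : ℝ) ≤ c0 ^ (a - 1) * (i : ℝ) ^ ((91 : ℝ) / 25)

/-! ## Quasi-primitive groups -/

/-- FTH: passing to a faithful action -/
def T_FTH : Prop := ∀ (R V : Type) [Group R] [Finite R] [AddCommGroup V] [Finite V]
  (ρ : R →* AddMonoid.End V), Group.IsSolvable R → QPr ρ →
  ∃ (R' : Type) (_ : Group R') (_ : Finite R') (ρ' : R' →* AddMonoid.End V), Group.IsSolvable R' ∧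
    QPr ρ' ∧ Function.Injective ρ' ∧ Nat.card R' = (Ck ρ ⊤).index ∧
    ∀ x, (St ρ' x).index = (St ρ x).index

/-- the abelian normal subgroup `U` acts on `V` by scalars from the field `K` which it generates -/
structure KSt {R V K : Type} [Group R] [AddCommGroup V] (ρ : R →* AddMonoid.End V)
    (U : Subgroup R) [Field K] [Module K V] (j : U →* Kˣ) : Prop where
  act : ∀ (z : U) (v : V), ρ z v = ((j z : Kˣ) : K) • v
  gen : Subring.closure (Set.range fun z : U => ((j z : Kˣ) : K)) = ⊤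

/-- FLD: in a quasi-primitive group the abelian normal subgroups act by scalars from a field -/
def T_FLD : Prop := ∀ (R V : Type) [Group R] [Finite R] [AddCommGroup V] [Finite V]
  (ρ : R →* AddMonoid.End V), QPr ρ → ∀ U : Subgroup R, U.Normal →
  (∀ a ∈ U, ∀ b ∈ U, a * b = b * a) →
  ∃ (K : Type) (_ : Field K) (_ : Finite K) (_ : Module K V) (j : U →* Kˣ), KSt ρ U j

/-- AUT: automorphisms of a cyclic normal subgroup -/
def T_AUT : Prop := ∀ (R : Type) [Group R] [Finite R] (U : Subgroup R), U.Normal →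
  IsCyclic U → 2 ≤ Nat.card U →
  (Subgroup.centralizer (U : Set R)).index + 1 ≤ Nat.card U

/-- GAL: the automorphisms of the field `K` -/
def T_GAL : Prop := ∀ (R V K : Type) [Group R] [Finite R] [AddCommGroup V] [Finite V]
  [Nontrivial V] (ρ : R →* AddMonoid.End V) (U : Subgroup R) [Field K] [Finite K] [Module K V]
  (j : U →* Kˣ), Function.Injective ρ → U.Normal → KSt ρ U j →
  2 ^ (Subgroup.centralizer (U : Set R)).index ≤ Nat.card K

/-- ABN: solvable groups have abelian normal subgroups -/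
def T_ABN : Prop := ∀ (R : Type) [Group R] [Finite R] [Nontrivial R], Group.IsSolvable R →
  ∃ A : Subgroup R, A.Normal ∧ (∀ a ∈ A, ∀ b ∈ A, a * b = b * a) ∧ A ≠ ⊥

/-- the subgroup `D` -/
structure QD {R : Type} [Group R] (U D : Subgroup R) : Prop where
  nU : U.Normal
  nD : D.Normal
  UD : U ≤ D
  DC : D ≤ Subgroup.centralizer (U : Set R)
  com : ∀ a ∈ D, ∀ b ∈ D, a * b * a⁻¹ * b⁻¹ ∈ U
  cen : ∀ a ∈ D, (∀ b ∈ D, a * b = b * a) → a ∈ U
  cDU : ∀ c ∈ Subgroup.centralizer (U : Set R), (∀ d ∈ D, c * d * c⁻¹ * d⁻¹ ∈ U) → c ∈ D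
  cr : ∀ L : Subgroup R, L.Normal → U ≤ L → L ≤ D →
    ∃ L' : Subgroup R, L'.Normal ∧ U ≤ L' ∧ L' ≤ D ∧ L ⊓ L' = U ∧ L ⊔ L' = D
  sqf : ∀ q : ℕ, q.Prime → ∀ a ∈ D, a ^ (q * q) ∈ U → a ^ q ∈ U

/-- the properties of `D` which do not need that `U` is cyclic -/
structure QD0 {R : Type} [Group R] (U D : Subgroup R) : Prop where
  nU : U.Normal
  nD : D.Normal
  UD : U ≤ D
  DC : D ≤ Subgroup.centralizer (U : Set R)
  com : ∀ a ∈ D, ∀ b ∈ D, a * b * a⁻¹ * b⁻¹ ∈ U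
  cen : ∀ a ∈ D, (∀ b ∈ D, a * b = b * a) → a ∈ U
  cr : ∀ L : Subgroup R, L.Normal → U ≤ L → L ≤ D →
    ∃ L' : Subgroup R, L'.Normal ∧ U ≤ L' ∧ L' ≤ D ∧ L ⊓ L' = U ∧ L ⊔ L' = D
  sqf : ∀ q : ℕ, q.Prime → ∀ a ∈ D, a ^ (q * q) ∈ U → a ^ q ∈ U
  meet : ∀ L : Subgroup R, L.Normal → U ≤ L → L ≤ Subgroup.centralizer (U : Set R) →
    L ⊓ D = U → L = U

/-- HMC: homomorphisms to cyclic groups -/
def T_HMC : Prop := ∀ (A U : Type) [CommGroup A] [Finite A] [CommGroup U] [Finite U],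
  IsCyclic U → Nat.card (A →* U) ≤ Nat.card A

/-- QD1: existence of `D`, first part -/
def T_QD1 : Prop := ∀ (R : Type) [Group R] [Finite R] (U : Subgroup R), Group.IsSolvable R →
  U.Normal →
  (∀ A : Subgroup R, A.Normal → (∀ a ∈ A, ∀ b ∈ A, a * b = b * a) → U ≤ A → A = U) →
  (∀ a ∈ U, ∀ b ∈ U, a * b = b * a) → ∃ D : Subgroup R, QD0 U D

/-- QD2: the centraliser of `D / U` -/
def T_QD2 : Prop := ∀ (R : Type) [Group R] [Finite R] (U D : Subgroup R), IsCyclic U →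
  QD0 U D → QD U D

/-- QDX: existence of `D` -/
def T_QDX : Prop := ∀ (R : Type) [Group R] [Finite R] (U : Subgroup R), Group.IsSolvable R →
  U.Normal → IsCyclic U →
  (∀ A : Subgroup R, A.Normal → (∀ a ∈ A, ∀ b ∈ A, a * b = b * a) → U ≤ A → A = U) →
  ∃ D : Subgroup R, QD U D

/-- SQR: the order of `D / U` is a square -/
def T_SQR : Prop := ∀ (R : Type) [Group R] [Finite R] (U D : Subgroup R), IsCyclic U →
  QD U D → ∃ ε : ℕ, 0 < ε ∧ U.relIndex D = ε * ε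

/-- ISO: isotropic subgroups -/
def T_ISO : Prop := ∀ (R : Type) [Group R] [Finite R] (U D A : Subgroup R), IsCyclic U →
  QD U D → A ≤ D → A ⊓ U = ⊥ → Nat.card A * Nat.card A ≤ U.relIndex D

/-- PRD: primes dividing the order of `D / U` -/
def T_PRD : Prop := ∀ (R : Type) [Group R] [Finite R] (U D : Subgroup R), QD U D →
  ∀ q : ℕ, q.Prime → q ∣ U.relIndex D → q ∣ Nat.card U

/-- LIN: linear independence -/
def T_LIN : Prop := ∀ (R V K : Type) [Group R] [Finite R] [AddCommGroup V] [Finite V]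
  [Nontrivial V] (ρ : R →* AddMonoid.End V) (U D : Subgroup R) [Field K] [Finite K]
  [Module K V] (j : U →* Kˣ), Function.Injective ρ → KSt ρ U j → QD U D →
  U.relIndex D ≤ Module.finrank K V * Module.finrank K V

/-- FPT: fixed points of non-central elements -/
def T_FPT : Prop := ∀ (R V K : Type) [Group R] [Finite R] [AddCommGroup V] [Finite V]
  (ρ : R →* AddMonoid.End V) (U : Subgroup R) [Field K] [Finite K]
  [Module K V] (j : U →* Kˣ), Function.Injective ρ → U.Normal → KSt ρ U j →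
  ∀ a ∈ Subgroup.centralizer (U : Set R), ∀ b ∈ Subgroup.centralizer (U : Set R),
  ∀ q : ℕ, q.Prime → a * b * a⁻¹ * b⁻¹ ∈ U → orderOf (a * b * a⁻¹ * b⁻¹) = q →
  (Nat.card {v : V // ρ a v = v}) ^ q ≤ Nat.card V

/-- CST: elements with fixed points in a coset of `U` -/
def T_CST : Prop := ∀ (R V K : Type) [Group R] [Finite R] [AddCommGroup V] [Finite V]
  (ρ : R →* AddMonoid.End V) (U : Subgroup R) [Field K] [Finite K]
  [Module K V] (j : U →* Kˣ), Function.Injective ρ → KSt ρ U j →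
  ∀ a ∈ Subgroup.centralizer (U : Set R), ∀ s : ℕ, 0 < s → a ^ s ∈ U →
  Nat.card {z : U // ∃ v : V, v ≠ 0 ∧ ρ (a * z) v = v} ≤ s

/-- CN3: a regular orbit of `D` if `|D / U| = 9` -/
def T_CN3 : Prop := ∀ (R V K : Type) [Group R] [Finite R] [AddCommGroup V] [Finite V]
  [Nontrivial V] (ρ : R →* AddMonoid.End V) (U D : Subgroup R) [Field K] [Finite K]
  [Module K V] (j : U →* Kˣ), Function.Injective ρ → KSt ρ U j → QD U D →
  U.relIndex D = 9 → ∃ x : V, x ≠ 0 ∧ D ⊓ St ρ x = ⊥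

/-- CN4: if `|D / U|` is `16` or `64` -/
def T_CN4 : Prop := ∀ (R V K : Type) [Group R] [Finite R] [AddCommGroup V] [Finite V]
  [Nontrivial V] (ρ : R →* AddMonoid.End V) (U D : Subgroup R) [Field K] [Finite K]
  [Module K V] (j : U →* Kˣ), Function.Injective ρ → KSt ρ U j → QD U D →
  (U.relIndex D = 16 ∨ U.relIndex D = 64) → ∃ x : V, x ≠ 0 ∧
    Nat.card (D ⊓ St ρ x : Subgroup R) ≤ 2

/-- CNB: a regular orbit of `D` in the other cases -/
def T_CNB : Prop := ∀ (R V K : Type) [Group R] [Finite R] [AddCommGroup V] [Finite V]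
  [Nontrivial V] (ρ : R →* AddMonoid.End V) (U D : Subgroup R) [Field K] [Finite K]
  [Module K V] (j : U →* Kˣ) (ε : ℕ), Function.Injective ρ → KSt ρ U j → QD U D →
  U.relIndex D = ε * ε → 5 ≤ ε → ε ≠ 8 → ∃ x : V, x ≠ 0 ∧ D ⊓ St ρ x = ⊥

/-- SEC: the action on an abelian section -/
def T_SEC : Prop := ∀ (R : Type) [Group R] [Finite R] (U D : Subgroup R), U.Normal → D.Normal →
  U ≤ D → (∀ a ∈ D, ∀ b ∈ D, a * b * a⁻¹ * b⁻¹ ∈ U) →
  ∃ (W : Type) (_ : AddCommGroup W) (_ : Finite W) (f : D →* Multiplicative W)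
    (κ : R →* AddMonoid.End W), Function.Surjective f ∧ (∀ d : D, f d = 1 ↔ (d : R) ∈ U) ∧
    Nat.card W = U.relIndex D ∧
    ∀ (r : R) (d d' : D), (d' : R) = r * d * r⁻¹ →
      κ r (Multiplicative.toAdd (f d)) = Multiplicative.toAdd (f d')

/-- PWI: the bound for `C / D` -/
def T_PWI : Prop := ∀ (R : Type) [Group R] [Finite R] (U D : Subgroup R), Group.IsSolvable R →
  QD U D → 2 ≤ U.relIndex D → PPW (U.relIndex D) →
  c0 * D.relIndex (Subgroup.centralizer (U : Set R)) ≤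
    (U.relIndex D : ℝ) ^ ((9 : ℝ) / 4)

/-- PW2: the bound for `C / D` if `|D / U| = 4` -/
def T_PW2 : Prop := ∀ (R : Type) [Group R] [Finite R] (U D : Subgroup R),
  QD U D → U.relIndex D = 4 → D.relIndex (Subgroup.centralizer (U : Set R)) ≤ 6

/-- NP: numerical facts for the bound of Pálfy and Wolf -/
def T_NP : Prop := ∀ (u ε g h v : ℕ), 1 ≤ u → 1 ≤ ε → 1 ≤ g → 1 ≤ h →
  (u + 1) ^ ε ≤ v → (2 ≤ u → g + 1 ≤ u) → (u = 1 → g = 1) → (ε = 1 → h = 1) →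
  (ε = 1 → 2 ^ g ≤ v) →
  (∀ q : ℕ, q.Prime → q ∣ ε → q ∣ u) → (ε = 2 → h ≤ 6) →
  (2 ≤ ε → c0 * h ≤ ((ε * ε : ℕ) : ℝ) ^ ((9 : ℝ) / 4)) →
  c0 * (g * h * (ε * ε) * u : ℕ) ≤ (v : ℝ) ^ ((9 : ℝ) / 4)

/-- NL: numerical facts for large orbits; `i` is the length of the orbit -/
def T_NL : Prop := ∀ (u ε g h i : ℕ), 2 ≤ u → 1 ≤ ε → 1 ≤ g → 1 ≤ h →
  g + 1 ≤ u → (ε = 1 → h = 1) →
  (∀ q : ℕ, q.Prime → q ∣ ε → q ∣ u) → (ε = 2 → h ≤ 6) →
  (2 ≤ ε → c0 * h ≤ ((ε * ε : ℕ) : ℝ) ^ ((9 : ℝ) / 4)) →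
  u * ε ≤ i → (ε = 3 → 9 * u ≤ i) → (4 ≤ ε → ε * ε * u ≤ 2 * i) →
  c0 * (g * h * (ε * ε) * u : ℕ) ≤ (i : ℝ) ^ ((91 : ℝ) / 25)

end FI
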