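import Pool.Agent.H6.FI.AsmA

/-!
# MP_7500ea_al, board fi_modules: assembly of part A, large orbits
-/

open scoped Classical

namespace FI

section

variable {R V : Type} [Group R] [AddCommGroup V]

theorem idx_pos [Finite R] (H : Subgroup R) : 1 ≤ H.index :=
  Nat.pos_of_ne_zero Subgroup.index_ne_zero_of_finite

theorem rel_pos [Finite R] (H K : Subgroup R) : 1 ≤ H.relIndex K :=
  Nat.pos_of_ne_zero (Subgroup.index_ne_zero_of_finite (H := H.subgroupOf K))

theorem rel_le_idx [Finite R] (H K : Subgroup R) : H.relIndex K ≤ H.index := by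
  rw [← Subgroup.relIndex_top_right]
  exact Subgroup.relIndex_le_of_le_right le_top
    (by rw [Subgroup.relIndex_top_right]; exact Subgroup.index_ne_zero_of_finite)

/-- orbits of the normal subgroup `D` -/
theorem orb [Finite R] {D : Subgroup R} (S : Subgroup R) :
    Nat.card D ≤ Nat.card (D ⊓ S : Subgroup R) * S.index := by
  have h1 : Nat.card (D ⊓ S : Subgroup R) * S.relIndex D = Nat.card D := by
    rw [← Subgroup.relIndex_bot_left, ← Subgroup.relIndex_bot_left, inf_comm,
      ← Subgroup.inf_relIndex_right S D]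
    exact Subgroup.relIndex_mul_relIndex _ _ _ bot_le inf_le_right
  rw [← h1]
  exact Nat.mul_le_mul_left _ (rel_le_idx S D)

end

/-- large orbits -/
theorem lo_all (TRL : T_TRL) (CRW : T_CRW) (CRN : T_CRN) (TWO : T_TWO) (MRG : T_MRG)
    (IMB : T_IMB) (CHL : T_CHL) (STB : T_STB) (AFF : T_AFF) (FAC : T_FAC) (ND : T_ND)
    (NS : T_NS) (FTH : T_FTH) (FLD : T_FLD) (AUT : T_AUT) (GAL : T_GAL) (ABN : T_ABN)
    (QDX : T_QDX) (SQR : T_SQR) (ISO : T_ISO) (PRD : T_PRD) (LIN : T_LIN) (CN3 : T_CN3)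
    (CN4 : T_CN4) (CNB : T_CNB) (PWI : T_PWI) (PW2 : T_PW2) (NL : T_NL)
    (hPW : ∀ n, PPW n) : ∀ n, PLO n := by
  intro n
  induction n using Nat.strong_induction_on with
  | _ n ih =>
  intro R V _ _ _ _ ρ hs hn hcr hne
  have ih' : ∀ m, m < Nat.card V → PLO m := fun m hm => ih m (by omega)
  have hnt : Nontrivial V := by
    obtain ⟨r, v, hv⟩ := hne
    exact ⟨⟨_, _, hv⟩⟩
  rcases trich MRG ρ hcr with ⟨W, W', hW, hW', h1, h2, h3, h4⟩ | ⟨H, W, hI, hH⟩ | hq
  · -- reducible
    have c1 := card_mul_le h1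
    have c2 := two_le_card h3
    have c3 := two_le_card h4
    have c4 : Nat.card W < Nat.card V := by nlinarith
    have c5 : Nat.card W' < Nat.card V := by nlinarith
    obtain ⟨e1, e2⟩ := TWO R V ρ W W' hW hW' h1 h2
    have a1 : ∃ x ∈ W, ((Ck ρ W).index : ℝ) ≤ ((St ρ x).index : ℝ) ^ ((91 : ℝ) / 25) ∧
        ((∃ r, ∃ v ∈ W, ρ r v ≠ v) →
          c0 * (Ck ρ W).index ≤ ((St ρ x).index : ℝ) ^ ((91 : ℝ) / 25)) := by
      by_cases h : ∃ r, ∃ v ∈ W, ρ r v ≠ v
      · obtain ⟨x, hx, hx'⟩ := TRL _ (ih' _ c4) R V ρ ⊤ W hs le_rfl hW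
          (CRW R V ρ ⊤ ⊤ W hcr le_top hW) (by
            obtain ⟨r, v, hv, hr⟩ := h
            exact ⟨r, trivial, v, hv, hr⟩)
        rw [Subgroup.relIndex_top_right, Subgroup.relIndex_top_right] at hx'
        refine ⟨x, hx, le_trans ?_ hx', fun _ => hx'⟩
        have := one_le_c0
        have h0 : (0 : ℝ) ≤ (Ck ρ W).index := Nat.cast_nonneg _
        nlinarith
      · refine ⟨0, W.zero_mem, ?_, fun h' => absurd h' h⟩
        push Not at h
        have h5 : Ck ρ W = ⊤ := by
          rw [eq_top_iff]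
          exact fun r _ w hw => h r w hw
        rw [h5, Subgroup.index_top]
        have h6 : (1 : ℝ) ≤ (St ρ (0 : V)).index := by exact_mod_cast idx_pos _
        simpa using Real.one_le_rpow h6 (by norm_num)
    have a2 : ∃ x ∈ W', ((Ck ρ W').relIndex (Ck ρ W) : ℝ) ≤
          ((St ρ x).relIndex (Ck ρ W) : ℝ) ^ ((91 : ℝ) / 25) ∧
        ((∃ r ∈ Ck ρ W, ∃ v ∈ W', ρ r v ≠ v) → c0 * (Ck ρ W').relIndex (Ck ρ W) ≤
          ((St ρ x).relIndex (Ck ρ W) : ℝ) ^ ((91 : ℝ) / 25)) := by
      by_cases h : ∃ r ∈ Ck ρ W, ∃ v ∈ W', ρ r v ≠ v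
      · obtain ⟨x, hx, hx'⟩ := TRL _ (ih' _ c5) R V ρ (Ck ρ W) W' hs le_rfl (hW'.mono le_top)
          (CRN R V ρ ⊤ (Ck ρ W) W' hW' (CRW R V ρ ⊤ ⊤ W' hcr le_top hW') le_top
            (fun b hb k hk => Ck_conj hW b hb k hk)) h
        refine ⟨x, hx, le_trans ?_ hx', fun _ => hx'⟩
        have := one_le_c0
        have h0 : (0 : ℝ) ≤ (Ck ρ W').relIndex (Ck ρ W) := Nat.cast_nonneg _
        nlinarith
      · refine ⟨0, W'.zero_mem, ?_, fun h' => absurd h' h⟩
        push Not at h
        have h5 : Ck ρ W ≤ Ck ρ W' := fun r hr w hw => h r hr w hw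
        rw [Subgroup.relIndex_eq_one.2 h5]
        have h6 : (1 : ℝ) ≤ (St ρ (0 : V)).relIndex (Ck ρ W) := by exact_mod_cast rel_pos _ _
        simpa using Real.one_le_rpow h6 (by norm_num)
    obtain ⟨x, hx, x1, x2⟩ := a1
    obtain ⟨y, hy, y1, y2⟩ := a2
    refine ⟨x + y, ?_⟩
    have e3 := e2 x hx y hy
    have e4 : (((St ρ x).index : ℝ) * (St ρ y).relIndex (Ck ρ W)) ^ ((91 : ℝ) / 25) ≤
        ((St ρ (x + y)).index : ℝ) ^ ((91 : ℝ) / 25) :=
      Real.rpow_le_rpow (by positivity) (by exact_mod_cast e3) (by norm_num)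
    refine le_trans ?_ e4
    rw [Real.mul_rpow (by positivity) (by positivity), e1]
    push_cast
    by_cases hh : ∃ r, ∃ v ∈ W, ρ r v ≠ v
    · have := mul_le_mul (x2 hh) y1 (Nat.cast_nonneg _) (Real.rpow_nonneg (Nat.cast_nonneg _) _)
      rw [mul_assoc] at this
      exact this
    · have h7 : ∃ r ∈ Ck ρ W, ∃ v ∈ W', ρ r v ≠ v := by
        by_contra h
        push Not at h hh
        obtain ⟨r, v, hv⟩ := hne
        apply hv
        have h8 : v ∈ W ⊔ W' := by rw [h2]; trivial
        obtain ⟨w, hw, w', hw', rfl⟩ := AddSubgroup.mem_sup.1 h8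
        rw [map_add, hh r w hw, h r (fun w hw => hh r w hw) w' hw']
      have := mul_le_mul x1 (y2 h7) (mul_nonneg c0_pos.le (Nat.cast_nonneg _))
        (Real.rpow_nonneg (Nat.cast_nonneg _) _)
      linarith
  · -- imprimitive
    obtain ⟨b1, b2, b3, b4, b5⟩ := IMB R V ρ H W hI hnt
    have hcrB : CR ρ H.normalCore ⊤ := CRN R V ρ ⊤ H.normalCore ⊤ (inv_top ρ ⊤) hcr le_top
      (fun b _ k hk => (inferInstance : H.normalCore.Normal).conj_mem k hk b)
    have hidx2 : 2 ≤ H.index := by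
      have h1 : H.index ≠ 0 := Subgroup.index_ne_zero_of_finite
      have h2 : H.index ≠ 1 := fun h => hH.1 (Subgroup.index_eq_one.1 h)
      omega
    have := Fintype.ofFinite (R ⧸ H)
    have hidx : Fintype.card (R ⧸ H) = H.index := by
      rw [Subgroup.index, Nat.card_eq_fintype_card]
    have hprm := prm AFF (hPW _) R H hs hH le_rfl
    obtain ⟨V', _, _, ρ', p, k, hp, hk, hV', hIx, -, -, hA⟩ := AFF R H hs hH
    have hmul : (Ck ρ ⊤).relIndex H.normalCore * H.normalCore.index = (Ck ρ ⊤).index :=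
      Subgroup.relIndex_mul_index b4
    have hc := c0_pos
    have h7 : (0 : ℝ) ≤ (Ck ρ ⊤).relIndex H.normalCore := Nat.cast_nonneg _
    by_cases hB : ∃ r ∈ H.normalCore, ∃ v, ρ r v ≠ v
    · obtain ⟨A, x, hAn, hx, hxA⟩ := CHL R V (R ⧸ H) ρ H.normalCore W hI.sup b3
        (by
          intro c B' hB' hB'' hn'
          exact TRL _ (ih' _ (b2 c)) R V ρ B' (W c) hs le_rfl ((b3 c).mono hB')
            (CRN R V ρ H.normalCore B' (W c) (b3 c)
              (CRW R V ρ H.normalCore ⊤ (W c) hcrB le_top (b3 c)) hB' hB'') hn') hB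
      refine ⟨∑ c ∈ A, x c, ?_⟩
      have hst := STB R V ρ H W hI A x hx
      have hm : (H.normalCore.index : ℝ) ≤
          c0 ^ (A.card - 1) * ((StA A).index : ℝ) ^ ((91 : ℝ) / 25) := by
        by_cases hall : ∃ c, c ∉ A
        · obtain ⟨j, hj, hj1, hj2⟩ := hA A hAn hall
          exact NS p k j A.card H.normalCore.index (StA A).index hp hj hj1 hj2
            (by rw [← hIx]; exact hprm)
        · push Not at hall
          have hAu : A = Finset.univ := Finset.eq_univ_iff_forall.2 hall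
          have h8 := ND H.index H.normalCore.index hidx2 (FAC R H) hprm
          rw [hAu, Finset.card_univ, hidx]
          refine h8.trans ?_
          have h9 : (1 : ℝ) ≤ ((StA (Finset.univ : Finset (R ⧸ H))).index : ℝ) := by
            exact_mod_cast idx_pos _
          have h10 : (1 : ℝ) ≤ ((StA (Finset.univ : Finset (R ⧸ H))).index : ℝ) ^
              ((91 : ℝ) / 25) := Real.one_le_rpow h9 (by norm_num)
          have h11 : (0 : ℝ) ≤ c0 ^ (H.index - 1) := by positivity
          nlinarith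
      have hst' : (((StA A).index : ℝ) * ((⨅ c ∈ A, St ρ (x c)).relIndex H.normalCore : ℝ)) ^
          ((91 : ℝ) / 25) ≤ ((St ρ (∑ c ∈ A, x c)).index : ℝ) ^ ((91 : ℝ) / 25) :=
        Real.rpow_le_rpow (by positivity) (by exact_mod_cast hst) (by norm_num)
      refine le_trans ?_ hst'
      rw [Real.mul_rpow (by positivity) (by positivity), ← hmul]
      push_cast
      have hA1 : 1 ≤ A.card := hAn.card_pos
      have h12 : c0 ^ A.card = c0 * c0 ^ (A.card - 1) := by
        rw [← pow_succ']; congr 1; omega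
      rw [h12] at hxA
      have h13 : (0 : ℝ) ≤ ((StA A).index : ℝ) ^ ((91 : ℝ) / 25) := by positivity
      calc c0 * ((Ck ρ ⊤).relIndex H.normalCore * H.normalCore.index : ℝ)
          ≤ c0 * ((Ck ρ ⊤).relIndex H.normalCore *
            (c0 ^ (A.card - 1) * ((StA A).index : ℝ) ^ ((91 : ℝ) / 25))) := by
            apply mul_le_mul_of_nonneg_left _ hc.le
            exact mul_le_mul_of_nonneg_left hm h7
        _ = ((StA A).index : ℝ) ^ ((91 : ℝ) / 25) *
            (c0 * c0 ^ (A.card - 1) * (Ck ρ ⊤).relIndex H.normalCore) := by ring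
        _ ≤ _ := mul_le_mul_of_nonneg_left hxA h13
    · push Not at hB
      have h8 : Ck ρ ⊤ = H.normalCore := le_antisymm b4 (fun r hr w _ => hB r hr w)
      let c : R ⧸ H := ((1 : R) : R ⧸ H)
      obtain ⟨x, hx, hx0⟩ : ∃ y : V, y ∈ W c ∧ y ≠ 0 := by
        obtain ⟨a, ha⟩ := AddSubgroup.ne_bot_iff_exists_ne_zero.1 (b1 c)
        exact ⟨a, a.2, fun h => ha (Subtype.ext h)⟩
      refine ⟨x, ?_⟩
      have hst := STB R V ρ H W hI {c} (fun _ => x) (by
        intro c' hc'
        rw [Finset.mem_singleton] at hc'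
        rw [hc']
        exact ⟨hx, hx0⟩)
      rw [Finset.sum_singleton] at hst
      have hex : ∃ c', c' ∉ ({c} : Finset (R ⧸ H)) := by
        by_contra hcon
        push Not at hcon
        have : (Finset.univ : Finset (R ⧸ H)) ⊆ {c} := fun a _ => hcon a
        have h9 := Finset.card_le_card this
        rw [Finset.card_univ, hidx, Finset.card_singleton] at h9
        omega
      obtain ⟨j, hj, hj1, hj2⟩ := hA {c} ⟨c, Finset.mem_singleton_self c⟩ hex
      have hj0 : j = 0 := by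
        by_contra h
        rw [Finset.card_singleton] at hj1
        have := Nat.one_lt_pow h hp.one_lt
        omega
      rw [hj0, Nat.sub_zero, ← hIx] at hj2
      have h10 : H.index ≤ (St ρ x).index := by
        refine hj2.trans (le_trans ?_ hst)
        exact Nat.le_mul_of_pos_right _ (rel_pos _ _)
      rw [h8]
      refine hprm.trans ?_
      have h11 : (1 : ℝ) ≤ (H.index : ℝ) := by exact_mod_cast idx_pos H
      refine (Real.rpow_le_rpow_of_exponent_le h11 (show (13 : ℝ) / 4 ≤ 91 / 25 by norm_num)).trans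
        (Real.rpow_le_rpow (by positivity) (by exact_mod_cast h10) (by norm_num))
  · -- quasi-primitive
    obtain ⟨R', _, _, ρ', hs', hq', hρ', hc', hst'⟩ := FTH R V ρ hs hq
    obtain ⟨U, D, K, _, _, _, j, ε, hK, hD, hcyc, hmax, hε, N⟩ := qdata FLD AUT GAL QDX SQR PRD
      LIN PWI PW2 R' V ρ' hs' hq' hρ' (fun m _ => hPW m)
    have hnt' : Nontrivial R' := by
      rw [← Finite.one_lt_card_iff_nontrivial, hc']
      have h1 : (Ck ρ ⊤).index ≠ 0 := Subgroup.index_ne_zero_of_finite
      have h2 : (Ck ρ ⊤).index ≠ 1 := by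
        intro h
        obtain ⟨r, v, hv⟩ := hne
        have h3 : r ∈ Ck ρ ⊤ := by rw [Subgroup.index_eq_one.1 h]; trivial
        exact hv (h3 v trivial)
      omega
    have hu2 : 2 ≤ Nat.card U := by
      by_contra hc
      push Not at hc
      have h1 : U = ⊥ := Subgroup.eq_bot_of_card_le U (by omega)
      obtain ⟨A, hA1, hA2, hA3⟩ := ABN R' hs'
      exact hA3 ((hmax A hA1 hA2 (by rw [h1]; exact bot_le)).trans h1)
    have hDU : ∀ x : V, x ≠ 0 → D ⊓ St ρ' x ⊓ U = ⊥ := by
      intro x hx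
      rw [eq_bot_iff]
      rintro z ⟨⟨_, hz1⟩, hz2⟩
      have hz3 : ((j ⟨z, hz2⟩ : Kˣ) : K) • x = x := by
        rw [← hK.act ⟨z, hz2⟩ x]; exact hz1
      have hz4 : (((j ⟨z, hz2⟩ : Kˣ) : K) - 1) • x = 0 := by
        rw [sub_smul, one_smul, hz3, sub_self]
      have hz5 : ((j ⟨z, hz2⟩ : Kˣ) : K) = 1 := by
        rcases smul_eq_zero.1 hz4 with h | h
        · exact sub_eq_zero.1 h
        · exact absurd h hx
      have hz6 : j ⟨z, hz2⟩ = 1 := Units.ext hz5
      have hz7 := hK.inj hρ' (hz6.trans (map_one j).symm)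
      rw [Subgroup.mem_bot]
      exact congrArg Subtype.val hz7
    have hDc : Nat.card D = ε * ε * Nat.card U := by
      have h3 : Nat.card U * U.relIndex D = Nat.card D := by
        rw [← Subgroup.relIndex_bot_left, ← Subgroup.relIndex_bot_left]
        exact Subgroup.relIndex_mul_relIndex _ _ _ bot_le hD.UD
      rw [← h3, hε, mul_comm]
    -- every orbit
    have hall : ∀ x : V, x ≠ 0 → Nat.card U * ε ≤ (St ρ' x).index := by
      intro x hx
      have h1 := ISO R' U D (D ⊓ St ρ' x) hcyc hD inf_le_left (hDU x hx)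
      rw [hε] at h1
      have h2 : Nat.card (D ⊓ St ρ' x : Subgroup R') ≤ ε := by
        by_contra hc
        push Not at hc
        have := Nat.mul_self_lt_mul_self hc
        omega
      have h3 := orb (D := D) (St ρ' x)
      rw [hDc] at h3
      have h4 : ε * ε * Nat.card U ≤ ε * (St ρ' x).index :=
        h3.trans (Nat.mul_le_mul_right _ h2)
      rw [mul_assoc] at h4
      have h5 := Nat.le_of_mul_le_mul_left h4 N.e1
      rw [mul_comm]
      exact h5
    have hreg : ∀ x : V, D ⊓ St ρ' x = ⊥ → ε * ε * Nat.card U ≤ (St ρ' x).index := by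
      intro x hx
      have h3 := orb (D := D) (St ρ' x)
      rw [hDc, hx, Subgroup.card_bot, one_mul] at h3
      exact h3
    obtain ⟨x, hx1, hx2, hx3⟩ : ∃ x : V, x ≠ 0 ∧ (ε = 3 → 9 * Nat.card U ≤ (St ρ' x).index) ∧
        (4 ≤ ε → ε * ε * Nat.card U ≤ 2 * (St ρ' x).index) := by
      by_cases e3 : ε = 3
      · obtain ⟨x, hx, hx'⟩ := CN3 R' V K ρ' U D j hρ' hK hD (by rw [hε, e3])
        have := hreg x hx'
        refine ⟨x, hx, fun _ => ?_, fun h => by omega⟩
        rw [e3] at this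
        exact this
      · by_cases e4 : ε = 4 ∨ ε = 8
        · obtain ⟨x, hx, hx'⟩ := CN4 R' V K ρ' U D j hρ' hK hD (by
            rw [hε]; rcases e4 with h | h <;> rw [h] <;> norm_num)
          refine ⟨x, hx, fun h => absurd h e3, fun _ => ?_⟩
          have h3 := orb (D := D) (St ρ' x)
          rw [hDc] at h3
          exact h3.trans (Nat.mul_le_mul_right _ hx')
        · push Not at e4
          by_cases e5 : 5 ≤ ε
          · obtain ⟨x, hx, hx'⟩ := CNB R' V K ρ' U D j ε hρ' hK hD hε e5 e4.2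
            have := hreg x hx'
            exact ⟨x, hx, fun h => absurd h e3, fun _ => by omega⟩
          · obtain ⟨x, hx⟩ := exists_ne (0 : V)
            exact ⟨x, hx, fun h => absurd h e3, fun h => by
              exfalso; apply e4.1; omega⟩
    refine ⟨x, ?_⟩
    rw [← hst' x, ← hc', N.card]
    exact NL _ _ _ _ _ hu2 N.e1 N.g1 N.h1 (N.gu hu2) N.eh N.prd N.h6 N.hw (hall x hx1) hx2 hx3

end FI
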