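import Pool.Agent.H6.FI.TargetsC
import Pool.Agent.H6.FI.AsmA2

/-!
# MP_7500ea_al, board fi_modules: assembly of the reduction theorem
-/

open scoped Classical ComplexConjugate

namespace FI

open AMc AMt

/-- the inequality for invariant characters, factor group of order at most `n` in the class -/
def Delta (𝒞 : (X : Type) → [Group X] → Prop) (e : ℝ) (n : ℕ) : Prop :=
  ∀ (Γ : Type) [Group Γ] [Fintype Γ] (K U : Subgroup Γ), NIn K U → ∀ θ ∈ IrrS K,
    (∀ u ∈ U, cj u θ = θ) → ∀ (Y : Type) [Group Y] [Finite Y] (q : U →* Y),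
    Function.Surjective q → (∀ x : U, q x = 1 ↔ (x : Γ) ∈ K) → 𝒞 Y → Nat.card Y ≤ n →
    ((sol Y).index : ℝ) ^ (1 / e) * (θ 1).re * kk U θ ≤ dd U θ

/-- closure of a class of groups -/
structure Clo (𝒞 : (X : Type) → [Group X] → Prop) : Prop where
  sub : ∀ (X' X : Type) [Group X'] [Finite X'] [Group X] [Finite X] (f : X' →* X),
    Function.Injective f → 𝒞 X → 𝒞 X'
  quo : ∀ (X X' : Type) [Group X'] [Finite X'] [Group X] [Finite X] (f : X →* X'),
    Function.Surjective f → Group.IsSolvable f.ker → 𝒞 X → 𝒞 X'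

theorem rpow_step {a b c e : ℝ} (he : 0 < e) (ha : 0 ≤ a) (hb : 0 ≤ b) (hc : 0 ≤ c)
    (h : a ≤ b ^ e * c) : a ^ (1 / e) ≤ b * c ^ (1 / e) := by
  have h1 : a ^ (1 / e) ≤ (b ^ e * c) ^ (1 / e) := Real.rpow_le_rpow ha h (by positivity)
  rw [Real.mul_rpow (by positivity) hc, ← Real.rpow_mul hb, mul_one_div_cancel he.ne',
    Real.rpow_one] at h1
  exact h1

/-- the induction -/
theorem delta (SOL : T_SOL) (SQ : T_SQ) (TRC : T_TRC) (CLF : T_CLF) (SPL : T_SPL)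
    (DGL : T_DGL) (STP : T_STP)
    (𝒞 : (X : Type) → [Group X] → Prop) (hC : Clo 𝒞) (e : ℝ) (he : 1 ≤ e)
    (N : ℕ)
    (hb : ∀ (X : Type) [Group X] [Finite X], 𝒞 X → ∀ T : Subgroup X,
      ((sol X).index : ℝ) ≤ (T.index : ℝ) ^ e * ((sol T).index : ℝ))
    (ha : ∀ (X : Type) [Group X] [Finite X], 𝒞 X → Nat.card X ≤ N → sol X = ⊥ →
      ∀ (Γ : Type) [Group Γ] [Fintype Γ] (Z : Subgroup Γ) (q : Γ →* X), CExt Z q →
      ∀ ν ∈ IrrS Z, (Nat.card X : ℝ) ^ (1 / e) * kk ⊤ ν ≤ dd ⊤ ν) :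
    ∀ n, n ≤ N → Delta 𝒞 e n := by
  intro n
  induction n using Nat.strong_induction_on with
  | _ n ih =>
  intro hnN Γ _ _ K U hKU θ hθ hinv Y _ _ q hq hker hY hn
  have he0 : 0 < e := by linarith
  by_cases hs : sol Y = ⊥
  · have h1 := TRC Y ((Nat.card Y : ℝ) ^ (1 / e)) (by positivity)
      (fun Γ' _ _ Z q' hZ ν hν => ha Y hY (hn.trans hnN) hs Γ' Z q' hZ ν hν) Γ K U hKU θ hθ
      hinv q hq hker
    rw [hs, Subgroup.index_bot]
    exact h1
  · obtain ⟨L, hL, hLab, hL1⟩ := (SOL Y).2.2.1 hs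
    let M : Subgroup Γ := (L.comap q).map U.subtype
    have hMU : M ≤ U := Subgroup.map_subtype_le _
    have hM : ∀ x : U, (x : Γ) ∈ M ↔ q x ∈ L := by
      intro x
      constructor
      · rintro ⟨y, hy, hyx⟩
        have : y = x := Subtype.ext hyx
        rw [← this]; exact hy
      · intro h
        exact ⟨x, h, rfl⟩
    have hKM : K ≤ M := by
      intro k hk
      have h1 : k = ((⟨k, hKU.le hk⟩ : U) : Γ) := rfl
      rw [h1, hM, (hker _).2 hk]
      exact L.one_mem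
    have hMn : NIn M U := by
      refine ⟨hMU, ?_⟩
      intro u hu g hg
      have h1 : u * g * u⁻¹ = ((⟨u, hu⟩ * ⟨g, hMU hg⟩ * ⟨u, hu⟩⁻¹ : U) : Γ) := rfl
      rw [h1, hM, map_mul, map_mul, map_inv]
      exact hL.conj_mem _ ((hM ⟨g, hMU hg⟩).1 hg) _
    have hKMn : NIn K M := ⟨hKM, fun u hu g hg => hKU.nor u (hMU hu) g hg⟩
    refine SPL Γ K M U hKM hMn θ hθ _ ?_
    intro φ hφ hφθ
    obtain ⟨hMT, hkk, hdd⟩ := CLF Γ M U hMn φ hφ
    have hTU : stab U φ ≤ U := fun x hx => hx.1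
    obtain ⟨Y', _, _, q', Yt, g, hq', hker', hg, hgs, hcard, hidx⟩ :=
      STP Γ K U M (stab U φ) Y q L hKU hq hker hL hLab hL1 hMU hM hMT hTU
    have hY' : 𝒞 Y' := hC.quo Yt Y' g hg hgs (hC.sub Yt Y Yt.subtype Yt.subtype_injective hY)
    have hD := ih (Nat.card Y') (by omega) (by omega) Γ M (stab U φ)
      ⟨hMT, fun u hu g hg => hMn.nor u (hTU hu) g hg⟩ φ hφ (fun u hu => hu.2) Y' q' hq' hker' hY'
      le_rfl
    rw [← (SQ Yt Y' g hg hgs).1, hkk] at hD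
    rw [hdd, hidx]
    have h2 := rpow_step he0 (Nat.cast_nonneg _) (Nat.cast_nonneg _) (Nat.cast_nonneg _)
      (hb Y hY Yt)
    have d1 := (DGL Γ K M hKMn).1 θ hθ
    have d2 := (DGL Γ K M hKMn).2 θ hθ φ hφ hφθ
    have h3 : (0 : ℝ) ≤ kk U φ := Nat.cast_nonneg _
    have h4 : (0 : ℝ) ≤ ((sol Yt).index : ℝ) ^ (1 / e) := by positivity
    have h5 : (0 : ℝ) ≤ (Yt.index : ℝ) := Nat.cast_nonneg _
    calc ((sol Y).index : ℝ) ^ (1 / e) * (θ 1).re * kk U φ
        ≤ (Yt.index * ((sol Yt).index : ℝ) ^ (1 / e)) * (φ 1).re * kk U φ := by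
          apply mul_le_mul_of_nonneg_right _ h3
          exact mul_le_mul h2 d2 d1.le (by positivity)
      _ = Yt.index * (((sol Yt).index : ℝ) ^ (1 / e) * (φ 1).re * kk U φ) := by ring
      _ ≤ _ := mul_le_mul_of_nonneg_left hD h5

/-- a linear character of the Fitting subgroup with a large orbit -/
theorem lam (CRN : T_CRN) (SOL : T_SOL) (DUA : T_DUA) (hLO : ∀ n, PLO n) (G : Type) [Group G]
    [Finite G] : ∃ l : fit G →* ℂˣ, ∀ T : Subgroup G,
      (∀ g, g ∈ T ↔ ∀ a b : fit G, (b : G) = g * a * g⁻¹ → l b = l a) →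
      ((fit G).relIndex (sol G) : ℝ) ≤ (T.relIndex (sol G) : ℝ) ^ ((91 : ℝ) / 25) := by
  obtain ⟨V, _, _, ρ, L, hcr, hfit, hst⟩ := DUA G
  have hnor : (sol G).Normal := sol_normal G
  have key : ∀ x : V, ∀ T : Subgroup G,
      (∀ g, g ∈ T ↔ ∀ a b : fit G, (b : G) = g * a * g⁻¹ → L x b = L x a) → T = St ρ x := by
    intro x T hT
    ext g
    rw [hT, mem_St, hst]
  have hsub : ∀ x : V, (St (ρ.comp (sol G).subtype) x).index = (St ρ x).relIndex (sol G) := by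
    intro x
    rfl
  have hck : (Ck (ρ.comp (sol G).subtype) ⊤).index = (fit G).relIndex (sol G) := by
    rw [Subgroup.relIndex]
    congr 1
    ext ⟨g, hg⟩
    exact hfit g hg
  by_cases hne : ∃ (r : sol G) (v : V), (ρ.comp (sol G).subtype) r v ≠ v
  · have hcr' : CR (ρ.comp (sol G).subtype) ⊤ ⊤ := by
      have h1 := CRN G V ρ ⊤ (sol G) ⊤ (inv_top ρ ⊤) hcr le_top
        (fun b _ k hk => hnor.conj_mem k hk b)
      intro X hX hI
      obtain ⟨X', hX', hI', h2, h3⟩ := h1 X hX (fun r hr w hw => hI ⟨r, hr⟩ trivial w hw)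
      exact ⟨X', hX', fun r _ w hw => hI' r r.2 w hw, h2, h3⟩
    obtain ⟨x, hx⟩ := hLO (Nat.card V) (sol G) V (ρ.comp (sol G).subtype) (SOL G).1 le_rfl hcr'
      hne
    refine ⟨L x, fun T hT => ?_⟩
    rw [key x T hT]
    rw [hsub, hck] at hx
    refine le_trans ?_ hx
    have h1 := one_le_c0
    have h2 : (0 : ℝ) ≤ (fit G).relIndex (sol G) := Nat.cast_nonneg _
    nlinarith
  · push Not at hne
    refine ⟨L 0, fun T hT => ?_⟩
    have h1 : (fit G).relIndex (sol G) = 1 := by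
      rw [← hck, Subgroup.index_eq_one, eq_top_iff]
      intro r _ v _
      exact hne r v
    rw [h1, Nat.cast_one]
    refine Real.one_le_rpow ?_ (by norm_num)
    exact_mod_cast rel_pos T (sol G)

/-- the last step -/
theorem red_core (SOL : T_SOL) (FNL : T_FNL) (CLF : T_CLF) (KKP : T_KKP)
    (BRG : T_BRG) (LCH : T_LCH) (GRP : T_GRP) (CRN : T_CRN) (DUA : T_DUA)
    (hLO : ∀ n, PLO n)
    (𝒞 : (X : Type) → [Group X] → Prop) (hC : Clo 𝒞) (e : ℝ) (he : 91 / 25 ≤ e)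
    (hb : ∀ (X : Type) [Group X] [Finite X], 𝒞 X → ∀ T : Subgroup X,
      ((sol X).index : ℝ) ≤ (T.index : ℝ) ^ e * ((sol T).index : ℝ))
    (hD : ∀ n, Delta 𝒞 e n) (G : Type) [Group G] [Finite G] (hG : 𝒞 G) :
    ∃ θ ∈ Irr (fit G), θ 1 = 1 ∧ ((fit G).index : ℝ) ≤ acd (fit G) θ ^ e := by
  have := Fintype.ofFinite G
  have he0 : 0 < e := by linarith
  obtain ⟨l, hl⟩ := lam CRN SOL DUA hLO G
  have hθI : (fun a : fit G => ((l a : ℂˣ) : ℂ)) ∈ Irr (fit G) := LCH (fit G) l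
  refine ⟨_, hθI, by simp, ?_⟩
  obtain ⟨hθS, hacd⟩ := BRG G (fit G) _ hθI
  generalize hθ' : ext0 (fit G) (fun a : fit G => ((l a : ℂˣ) : ℂ)) = θ' at hθS hacd
  have hnF : (fit G).Normal := fit_normal G
  have hv : ∀ g, g ∉ fit G → θ' g = 0 := by
    intro g hg
    rw [← hθ', ext0, dif_neg hg]
  have hv' : ∀ a : fit G, θ' a = ((l a : ℂˣ) : ℂ) := by
    intro a
    rw [← hθ', ext0, dif_pos a.2]
  have hnin : NIn (fit G) ⊤ := ⟨le_top, fun u _ g hg => hnF.conj_mem g hg u⟩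
  obtain ⟨c1, c2, c3⟩ := CLF G (fit G) ⊤ hnin θ' hθS
  have hTmem : ∀ g, g ∈ stab ⊤ θ' ↔ ∀ a b : fit G, (b : G) = g * a * g⁻¹ → l b = l a := by
    intro g
    constructor
    · rintro ⟨-, hg⟩ a b hab
      have h1 := congrFun hg (a : G)
      simp only [cj] at h1
      rw [← hab, hv', hv'] at h1
      exact Units.ext h1
    · intro h
      refine ⟨trivial, ?_⟩
      funext x
      simp only [cj]
      by_cases hx : x ∈ fit G
      · have h1 := h ⟨x, hx⟩ ⟨g * x * g⁻¹, hnF.conj_mem x hx g⟩ rfl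
        have h2 := hv' ⟨x, hx⟩
        have h3 := hv' ⟨g * x * g⁻¹, hnF.conj_mem x hx g⟩
        simp only at h2 h3
        rw [h2, h3, h1]
      · rw [hv x hx, hv]
        intro h1
        apply hx
        have h2 := hnF.conj_mem _ h1 g⁻¹
        have h3 : g⁻¹ * (g * x * g⁻¹) * g⁻¹⁻¹ = x := by group
        rwa [h3] at h2
  have hlT := hl (stab ⊤ θ') hTmem
  have hFT : fit G ≤ stab ⊤ θ' := c1
  -- the factor group
  have hnS : ((fit G).subgroupOf (stab ⊤ θ')).Normal := inferInstance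
  have hker : ∀ x : stab ⊤ θ', (QuotientGroup.mk' ((fit G).subgroupOf (stab ⊤ θ'))) x = 1 ↔
      (x : G) ∈ fit G := by
    intro x
    rw [← MonoidHom.mem_ker, QuotientGroup.ker_mk', Subgroup.mem_subgroupOf]
  have hnil := (FNL G).1
  have hsolF : Group.IsSolvable (fit G) := inferInstance
  have hsolK : Group.IsSolvable
      (QuotientGroup.mk' ((fit G).subgroupOf (stab ⊤ θ'))).ker := by
    refine Group.isSolvable_of_isSolvable_injective
      (f := ((stab ⊤ θ').subtype.comp (QuotientGroup.mk' _).ker.subtype).codRestrict (fit G)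
        (fun x => (hker x.1).1 x.2)) ?_
    intro x y hxy
    exact Subtype.ext (Subtype.ext (congrArg (fun z : fit G => (z : G)) hxy))
  have hCT : 𝒞 (stab ⊤ θ') := hC.sub _ _ (stab ⊤ θ').subtype (Subgroup.subtype_injective _) hG
  have hCY := hC.quo _ _ (QuotientGroup.mk' ((fit G).subgroupOf (stab ⊤ θ')))
    (QuotientGroup.mk'_surjective _) hsolK hCT
  have hCS : 𝒞 (G ⧸ sol G) := hC.quo _ _ (QuotientGroup.mk' (sol G))
    (QuotientGroup.mk'_surjective _) (by rw [QuotientGroup.ker_mk']; exact (SOL G).1) hG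
  have hDel := hD _ G (fit G) (stab ⊤ θ')
    ⟨hFT, fun u _ g hg => hnF.conj_mem g hg u⟩ θ' hθS (fun u hu => hu.2) _
    (QuotientGroup.mk' ((fit G).subgroupOf (stab ⊤ θ'))) (QuotientGroup.mk'_surjective _) hker
    hCY le_rfl
  have h1F : (1 : ℝ) ≤ ((stab ⊤ θ').relIndex (sol G) : ℝ) := by
    exact_mod_cast rel_pos _ _
  have hgrp := GRP G e (by linarith) (hb _ hCS) (stab ⊤ θ') hFT
    (hlT.trans (Real.rpow_le_rpow_of_exponent_le h1F he)) _
    (QuotientGroup.mk' ((fit G).subgroupOf (stab ⊤ θ'))) (QuotientGroup.mk'_surjective _) hker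
  have h2 := rpow_step he0 (Nat.cast_nonneg _) (Nat.cast_nonneg _) (Nat.cast_nonneg _) hgrp
  have hθ1 : (θ' 1).re = 1 := by
    have := hv' 1
    rw [map_one, Units.val_one, OneMemClass.coe_one] at this
    rw [this, Complex.one_re]
  rw [hθ1, mul_one, c2] at hDel
  rw [Subgroup.relIndex_top_right] at c3
  obtain ⟨-, k1, -⟩ := KKP G (fit G) ⊤ le_top θ' hθS
  have k2 : (0 : ℝ) < kk ⊤ θ' := by exact_mod_cast k1
  have h3 : ((fit G).index : ℝ) ^ (1 / e) * kk ⊤ θ' ≤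
      acd (fit G) (fun a : fit G => ((l a : ℂˣ) : ℂ)) * kk ⊤ θ' := by
    rw [hacd, c3]
    calc ((fit G).index : ℝ) ^ (1 / e) * kk ⊤ θ'
        ≤ _ * kk ⊤ θ' := mul_le_mul_of_nonneg_right h2 k2.le
      _ = (stab ⊤ θ').index * (_ * kk ⊤ θ') := by rw [mul_assoc]
      _ ≤ _ := mul_le_mul_of_nonneg_left hDel (Nat.cast_nonneg _)
  have h4 := le_of_mul_le_mul_right h3 k2
  have h5 : (((fit G).index : ℝ) ^ (1 / e)) ^ e ≤
      acd (fit G) (fun a : fit G => ((l a : ℂˣ) : ℂ)) ^ e :=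
    Real.rpow_le_rpow (by positivity) h4 he0.le
  rw [← Real.rpow_mul (Nat.cast_nonneg _), one_div_mul_cancel he0.ne', Real.rpow_one] at h5
  exact h5

/-- the reduction theorem -/
theorem red (SOL : T_SOL) (SQ : T_SQ) (FNL : T_FNL) (CLF : T_CLF) (KKP : T_KKP)
    (BRG : T_BRG) (LCH : T_LCH) (GRP : T_GRP) (CRN : T_CRN) (DUA : T_DUA) (KCL : T_KCL)
    (GDI : T_GDI) (GDA : T_GDA) (TRC : T_TRC) (SPL : T_SPL) (DGL : T_DGL) (STP : T_STP)
    (hLO : ∀ n, PLO n) : T_RED := by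
  intro e he Y _ _ hY G _ _ f hf
  obtain ⟨k1, k2, k3⟩ := KCL Y
  have hC : Clo (fun X [Group X] => Kc Y X) := ⟨k1, k2⟩
  have hb := GDI e (by linarith) Y hY
  refine red_core SOL FNL CLF KKP BRG LCH GRP CRN DUA hLO (fun X [Group X] => Kc Y X) hC e he
    hb ?_ G (k3 G f hf)
  intro n
  exact delta SOL SQ TRC CLF SPL DGL STP _ hC e (by linarith) n hb
    (fun X _ _ h1 _ h2 => GDA e (by linarith) Y hY X h1 h2) n le_rfl

end FI
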