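import Pool.Agent.H6.FI.AsmB

/-!
# MP_7500ea_al, board fi_modules: final assembly
-/

open scoped Classical ComplexConjugate

namespace FI

open AMc AMt

/-- average degrees over invariant characters -/
theorem a5n (hD : ∀ n, Delta (fun X [Group X] => Kf X) e0 n) (KKP : T_KKP) (BRG : T_BRG) :
    T_A5N := by
  intro G _ _ N θ hθ hinv Y _ _ q hY hq hker
  have := Fintype.ofFinite G
  obtain ⟨h1, h2⟩ := BRG G N θ hθ
  have hv : ∀ g, g ∉ N → ext0 N θ g = 0 := fun g hg => by rw [ext0, dif_neg hg]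
  have hv' : ∀ a : N, ext0 N θ a = θ a := fun a => by rw [ext0, dif_pos a.2]
  have hN : N.Normal := by rw [← hker]; infer_instance
  have hcj : ∀ u : G, cj u (ext0 N θ) = ext0 N θ := by
    intro u
    funext x
    simp only [cj]
    by_cases hx : x ∈ N
    · have h3 := hv' ⟨x, hx⟩
      have h4 := hv' ⟨u * x * u⁻¹, hN.conj_mem x hx u⟩
      simp only at h3 h4
      rw [h3, h4]
      exact hinv u ⟨x, hx⟩ ⟨u * x * u⁻¹, hN.conj_mem x hx u⟩ rfl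
    · rw [hv x hx, hv]
      intro h
      apply hx
      have h5 := hN.conj_mem _ h u⁻¹
      have h6 : u⁻¹ * (u * x * u⁻¹) * u⁻¹⁻¹ = x := by group
      rwa [h6] at h5
  have h3 := hD (Nat.card Y) G N ⊤ ⟨le_top, fun u _ g hg => hN.conj_mem g hg u⟩ _ h1
    (fun u _ => hcj u) Y (q.comp (⊤ : Subgroup G).subtype) (by
      intro y
      obtain ⟨x, rfl⟩ := hq y
      exact ⟨⟨x, trivial⟩, rfl⟩) (by
      intro x
      rw [← hker]
      rfl) hY le_rfl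
  obtain ⟨-, k1, -⟩ := KKP G N ⊤ le_top _ h1
  have k2 : (0 : ℝ) < kk ⊤ (ext0 N θ) := by exact_mod_cast k1
  have h4 : (ext0 N θ 1) = θ 1 := hv' 1
  rw [h4, ← h2] at h3
  have h5 := le_of_mul_le_mul_right h3 k2
  rw [mul_comm]
  exact h5

theorem one_le_acd (KKP : T_KKP) (BRG : T_BRG) (G : Type) [Group G] [Finite G]
    (N : Subgroup G) (θ : N → ℂ) (hθ : θ ∈ Irr N) : 1 ≤ acd N θ := by
  have := Fintype.ofFinite G
  obtain ⟨h1, h2⟩ := BRG G N θ hθ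
  obtain ⟨-, k1, k3⟩ := KKP G N ⊤ le_top _ h1
  have k2 : (0 : ℝ) < kk ⊤ (ext0 N θ) := by exact_mod_cast k1
  rw [← h2] at k3
  have h3 : 1 * (kk ⊤ (ext0 N θ) : ℝ) ≤ acd N θ * kk ⊤ (ext0 N θ) := by rw [one_mul]; exact k3
  exact le_of_mul_le_mul_right h3 k2

/-- the four parts of the theorem -/
theorem final (KKP : T_KKP) (BRG : T_BRG) (RED : T_RED) (A5M : T_A5M) (A5N : T_A5N)
    (OPT : T_OPT) :
    (∀ (e : ℝ), 91 / 25 ≤ e → ∀ (Y : Type) [Group Y] [Finite Y], Good e Y →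
      ∀ (G : Type) [Group G] [Finite G] (f : G →* Y), Group.IsSolvable f.ker →
      ∃ θ ∈ Irr (fit G), θ 1 = 1 ∧ ((fit G).index : ℝ) ≤ acd (fit G) θ ^ e) ∧
    (∀ (e : ℝ), e0 ≤ e → ∀ (G : Type) [Group G] [Finite G], Kf G →
      ∃ θ ∈ Irr (fit G), θ 1 = 1 ∧ ((fit G).index : ℝ) ≤ acd (fit G) θ ^ e) ∧
    (∀ (G : Type) [Group G] [Finite G] (N : Subgroup G), ∀ θ ∈ Irr N,
      (∀ g : G, ∀ a b : N, (b : G) = g * a * g⁻¹ → θ b = θ a) →
      ∀ (Y : Type) [Group Y] [Finite Y] (q : G →* Y), Kf Y → Function.Surjective q →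
      q.ker = N → (θ 1).re * ((sol Y).index : ℝ) ^ (1 / e0) ≤ acd N θ) ∧
    (∀ (e : ℝ), (∀ (G : Type) [Group G] [Finite G], Kf G →
      ∃ θ ∈ Irr (fit G), θ 1 = 1 ∧ ((fit G).index : ℝ) ≤ acd (fit G) θ ^ e) → e0 ≤ e) := by
  refine ⟨RED, ?_, A5N, ?_⟩
  · intro e he G _ _ hG
    obtain ⟨θ, hθ, h1, h2⟩ := A5M G hG
    exact ⟨θ, hθ, h1, h2.trans (Real.rpow_le_rpow_of_exponent_le
      (one_le_acd KKP BRG G _ θ hθ) he)⟩
  · intro e he
    have hk : Kf (Equiv.Perm (Fin 5)) := by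
      refine ⟨1, ⟨⟨fun x _ => x, rfl⟩, fun _ _ => rfl⟩, ?_⟩
      have h : (⟨⟨fun x _ => x, rfl⟩, fun _ _ => rfl⟩ :
          Equiv.Perm (Fin 5) →* (Fin 1 → Equiv.Perm (Fin 5))).ker = ⊥ := by
        rw [eq_bot_iff]
        intro x hx
        exact congrFun (MonoidHom.mem_ker.1 hx) 0
      rw [h]
      infer_instance
    obtain ⟨θ, hθ, -, h2⟩ := he (Equiv.Perm (Fin 5)) hk
    rw [OPT.1, OPT.2 θ hθ] at h2
    rw [e0, div_le_iff₀ (Real.log_pos (by norm_num))]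
    have h3 := Real.log_le_log (by norm_num) h2
    rw [Real.log_rpow (by norm_num)] at h3
    exact_mod_cast h3

end FI
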