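import Pool.Agent.H6.FI.AsmG
import Pool.Agent.H1.FI.CRN
import Pool.Agent.H11.FI.AF3
import Pool.Agent.H11.FI.CRW
import Pool.Agent.H11.FI.DGL
import Pool.Agent.H2.FI.AID
import Pool.Agent.H2.FI.NL
import Pool.Agent.H20.FI.CN3
import Pool.Agent.H20.FI.CN4
import Pool.Agent.H20.FI.CST
import Pool.Agent.H20.FI.FPT
import Pool.Agent.H20.FI.PRD
import Pool.Agent.H34.FI.NS
import Pool.Agent.H34.FI.S5R
import Pool.Agent.H37.FI.EXM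
import Pool.Agent.H37.FI.IMN
import Pool.Agent.H37.FI.TRL
import Pool.Agent.H37.FI.TRP
import Pool.Agent.H40.FI.AFF
import Pool.Agent.H40.FI.DU0
import Pool.Agent.H40.FI.QDX
import Pool.Agent.H40.FI.SQ
import Pool.Agent.H43.FI.CEN
import Pool.Agent.H43.FI.FAC
import Pool.Agent.H43.FI.GRP
import Pool.Agent.H46.FI.KCN
import Pool.Agent.H46.FI.ND
import Pool.Agent.H46.FI.SSQ
import Pool.Agent.H52.FI.FLD
import Pool.Agent.H52.FI.NP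
import Pool.Agent.H54.FI.GDA
import Pool.Agent.H54.FI.TRC
import Pool.Agent.H55.FI.CPR
import Pool.Agent.H55.FI.FTH
import Pool.Agent.H63.FI.BRG
import Pool.Agent.H63.FI.DET
import Pool.Agent.H63.FI.GIS
import Pool.Agent.H63.FI.LIN
import Pool.Agent.H63.FI.PW2
import Pool.Agent.H63.FI.SOL
import Pool.Agent.H67.FI.AEC
import Pool.Agent.H67.FI.CLF
import Pool.Agent.H67.FI.KCL
import Pool.Agent.H7.FI.A5B
import Pool.Agent.H7.FI.AEX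
import Pool.Agent.H7.FI.FPH
import Pool.Agent.H7.FI.GAS
import Pool.Agent.H7.FI.NIV
import Pool.Agent.H7.FI.NPH
import Pool.Agent.H70.FI.A5T
import Pool.Agent.H70.FI.ABN
import Pool.Agent.H70.FI.AUT
import Pool.Agent.H70.FI.CHP
import Pool.Agent.H72.FI.ABL
import Pool.Agent.H72.FI.AF1
import Pool.Agent.H73.FI.AKR
import Pool.Agent.H73.FI.AST
import Pool.Agent.H73.FI.HMC
import Pool.Agent.H73.FI.ISO
import Pool.Agent.H73.FI.QD2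
import Pool.Agent.H73.FI.S5V
import Pool.Agent.H73.FI.SQR
import Pool.Agent.H74.FI.A5C
import Pool.Agent.H74.FI.AR
import Pool.Agent.H74.FI.FNL
import Pool.Agent.H74.FI.GAL
import Pool.Agent.H74.FI.SEC
import Pool.Agent.H75.FI.CNB
import Pool.Agent.H75.FI.EX2
import Pool.Agent.H75.FI.QD1
import Pool.Agent.H77.FI.ACL
import Pool.Agent.H77.FI.CHL
import Pool.Agent.H77.FI.S5S
import Pool.Agent.H77.FI.STB
import Pool.Agent.H80.FI.STP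
import Pool.Agent.H82.FI.PWI
import Pool.Agent.H82.FI.SPL
import Pool.Agent.H94.FI.IX2
import Pool.Agent.H94.FI.LCH
import Pool.Agent.H94.FI.NE
import Pool.Agent.H94.FI.OPT
import Pool.Agent.H94.FI.TWO
import Pool.Agent.H98.FI.IMB
import Pool.Agent.H98.FI.KKP
import Pool.Agent.H99.FI.ASK
import Pool.Agent.H99.FI.DUA
import Pool.Agent.H99.FI.EX1
import Pool.Agent.H99.FI.GDI

/-!
# MP_7500ea_al, board fi_modules: composition of the rows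
-/

open scoped Classical ComplexConjugate

namespace FI.All

open FI AMc AMt

theorem rA5B : T_A5B := Pool.Agent.H7.FI.pf_A5B
theorem rA5C : T_A5C := Pool.Agent.H74.FI.A5C.pf_A5C
theorem rA5T : T_A5T := Pool.Agent.H70.FI.A5T.pf_A5T rA5B rA5C
theorem rABL : T_ABL := Pool.Agent.H72.FI.pf_ABL
theorem rABN : T_ABN := Pool.Agent.H70.FI.pf_ABN
theorem rS5R : T_S5R := Pool.Agent.H34.FI.pf_S5R
theorem rS5V : T_S5V := Pool.Agent.H73.FI.pf_S5V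
theorem rSOL : T_SOL := Pool.Agent.H63.FI.pf_SOL
theorem rAKR : T_AKR := Pool.Agent.H73.FI.pf_AKR rS5R rS5V rSOL
theorem rSQ : T_SQ := Pool.Agent.H40.FI.pf_SQ rSOL
theorem rACL : T_ACL := Pool.Agent.H77.FI.pf_ACL rAKR rSQ
theorem rAEC : T_AEC := Pool.Agent.H67.FI.pf_AEC
theorem rEX1 : T_EX1 := Pool.Agent.H99.FI.pf_EX1 rAEC rABL
theorem rDET : T_DET := Pool.Agent.H63.FI.pf_DET
theorem rSSQ : T_SSQ := Pool.Agent.H46.FI.pf_SSQ rABL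
theorem rKCN : T_KCN := Pool.Agent.H46.FI.pf_KCN rABL
theorem rAR : T_AR := Pool.Agent.H74.FI.AR.pf_AR
theorem rKKP : T_KKP := Pool.Agent.H98.FI.pf_KKP
theorem rAEX : T_AEX := Pool.Agent.H7.FI.pf_AEX rAEC rEX1 rDET rSSQ rKCN rA5C rAR rABL rKKP
theorem rAF1 : T_AF1 := Pool.Agent.H72.FI.pf_AF1
theorem rAF3 : T_AF3 := Pool.Agent.H11.FI.pf_AF3
theorem rSEC : T_SEC := Pool.Agent.H74.FI.SEC.pf_SEC
theorem rAFF : T_AFF := Pool.Agent.H40.FI.pf_AFF rAF1 rAF3 rSEC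
theorem rAST : T_AST := Pool.Agent.H73.FI.pf_AST rAKR rS5R
theorem rASK : T_ASK := Pool.Agent.H99.FI.pf_ASK rSOL rSQ
theorem rS5S : T_S5S := Pool.Agent.H77.FI.pf_S5S
theorem rAID : T_AID := Pool.Agent.H2.FI.pf_AID rSOL rSQ rAKR rAST rASK rS5S rS5R rS5V rACL
theorem rAUT : T_AUT := Pool.Agent.H70.FI.pf_AUT
theorem rBRG : T_BRG := Pool.Agent.H63.FI.pf_BRG
theorem rFNL : T_FNL := Pool.Agent.H74.FI.FNL.pf_FNL rSOL
theorem rFPH : T_FPH := Pool.Agent.H7.FI.pf_FPH rFNL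
theorem rNPH : T_NPH := Pool.Agent.H7.FI.pf_NPH
theorem rCEN : T_CEN := Pool.Agent.H43.FI.pf_CEN rSOL rFNL rFPH rNPH
theorem rCHL : T_CHL := Pool.Agent.H77.FI.pf_CHL
theorem rCHP : T_CHP := Pool.Agent.H70.FI.pf_CHP
theorem rCLF : T_CLF := Pool.Agent.H67.FI.pf_CLF
theorem rFPT : T_FPT := Pool.Agent.H20.FI.pf_FPT
theorem rCST : T_CST := Pool.Agent.H20.FI.pf_CST
theorem rLIN : T_LIN := Pool.Agent.H63.FI.pf_LIN
theorem rPRD : T_PRD := Pool.Agent.H20.FI.pf_PRD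
theorem rCN3 : T_CN3 := Pool.Agent.H20.FI.pf_CN3 rFPT rCST rLIN rPRD
theorem rCN4 : T_CN4 := Pool.Agent.H20.FI.pf_CN4 rFPT rCST rLIN rPRD
theorem rCNB : T_CNB := Pool.Agent.H75.FI.pf_CNB rFPT rCST rLIN rPRD
theorem rCPR : T_CPR := Pool.Agent.H55.FI.pf_CPR rABL rSSQ
theorem rCRW : T_CRW := Pool.Agent.H11.FI.pf_CRW
theorem rCRN : T_CRN := Pool.Agent.H1.FI.pf_CRN rCRW
theorem rDGL : T_DGL := Pool.Agent.H11.FI.pf_DGL
theorem rDU0 : T_DU0 := Pool.Agent.H40.FI.pf_DU0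
theorem rGAS : T_GAS := Pool.Agent.H7.FI.pf_GAS rFNL rFPH
theorem rDUA : T_DUA := Pool.Agent.H99.FI.pf_DUA rSEC rDU0 rFNL rFPH rGAS rCEN
theorem rIMN : T_IMN := Pool.Agent.H37.FI.pf_IMN rAEC rSSQ rA5T rABL
theorem rGIS : T_GIS := Pool.Agent.H63.FI.pf_GIS
theorem rEX2 : T_EX2 := Pool.Agent.H75.FI.pf_EX2 rAEC rA5T rIMN rGIS rCLF rABL
theorem rEXM : T_EXM := Pool.Agent.H37.FI.pf_EXM rA5T rIMN
theorem rFAC : T_FAC := Pool.Agent.H43.FI.pf_FAC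
theorem rFLD : T_FLD := Pool.Agent.H52.FI.pf_FLD
theorem rFTH : T_FTH := Pool.Agent.H55.FI.pf_FTH
theorem rGAL : T_GAL := Pool.Agent.H74.FI.GAL.pf_GAL
theorem rGDA : T_GDA := Pool.Agent.H54.FI.pf_GDA rSOL rSQ rBRG
theorem rGDI : T_GDI := Pool.Agent.H99.FI.pf_GDI rSOL rSQ
theorem rGRP : T_GRP := Pool.Agent.H43.FI.pf_GRP rSOL rSQ
theorem rHMC : T_HMC := Pool.Agent.H73.FI.pf_HMC
theorem rIMB : T_IMB := Pool.Agent.H98.FI.pf_IMB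
theorem rISO : T_ISO := Pool.Agent.H73.FI.pf_ISO rHMC
theorem rIX2 : T_IX2 := Pool.Agent.H94.FI.pf_IX2 rKKP
theorem rKCL : T_KCL := Pool.Agent.H67.FI.pf_KCL
theorem rLCH : T_LCH := Pool.Agent.H94.FI.pf_LCH
theorem rMRG : T_MRG := Pool.Agent.H94.FI.pf_MRG
theorem rND : T_ND := Pool.Agent.H46.FI.pf_ND
theorem rNE : T_NE := Pool.Agent.H94.FI.pf_NE
theorem rNIV : T_NIV := Pool.Agent.H7.FI.pf_NIV rAEC rA5T rABL rIMN
theorem rNL : T_NL := Pool.Agent.H2.FI.pf_NL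
theorem rNP : T_NP := Pool.Agent.H52.FI.pf_NP
theorem rNS : T_NS := Pool.Agent.H34.FI.pf_NS
theorem rOPT : T_OPT := Pool.Agent.H94.FI.pf_OPT rEX2 rA5T rS5R rS5V rBRG rABL rCLF
theorem rPW2 : T_PW2 := Pool.Agent.H63.FI.pf_PW2 rSEC
theorem rTRP : T_TRP := Pool.Agent.H37.FI.pf_TRP
theorem rPWI : T_PWI := Pool.Agent.H82.FI.pf_PWI rSEC rCRN rTRP
theorem rQD1 : T_QD1 := Pool.Agent.H75.FI.pf_QD1
theorem rQD2 : T_QD2 := Pool.Agent.H73.FI.pf_QD2 rHMC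
theorem rQDX : T_QDX := Pool.Agent.H40.FI.pf_QDX rQD1 rQD2
theorem rSPL : T_SPL := Pool.Agent.H82.FI.pf_SPL
theorem rSQR : T_SQR := Pool.Agent.H73.FI.pf_SQR rHMC
theorem rSTB : T_STB := Pool.Agent.H77.FI.pf_STB
theorem rSTP : T_STP := Pool.Agent.H80.FI.pf_STP
theorem rTRC : T_TRC := Pool.Agent.H54.FI.pf_TRC
theorem rTRL : T_TRL := Pool.Agent.H37.FI.pf_TRL
theorem rTWO : T_TWO := Pool.Agent.H94.FI.pf_TWO

theorem hPW : ∀ n, PPW n :=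
  pw_all rTRP rCRW rCRN rTWO rMRG rIMB rCHP rAFF rFAC rND rFTH rFLD rAUT rGAL rQDX rSQR rPRD
    rLIN rPWI rPW2 rNP

theorem hLO : ∀ n, PLO n :=
  lo_all rTRL rCRW rCRN rTWO rMRG rIMB rCHL rSTB rAFF rFAC rND rNS rFTH rFLD rAUT rGAL rABN
    rQDX rSQR rISO rPRD rLIN rCN3 rCN4 rCNB rPWI rPW2 rNL hPW

theorem hRED : T_RED :=
  red rSOL rSQ rFNL rCLF rKKP rBRG rLCH rGRP rCRN rDUA rKCL rGDI rGDA rTRC rSPL rDGL rSTP hLO

theorem hDel : ∀ n, Delta (fun X [Group X] => Kf X) e0 n :=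
  kf_delta rSOL rSQ rTRC rSTP rNE rACL rAST rASK rAID rAEC rKKP rCLF rSPL rDGL rEXM rCPR rEX2
    rIX2 rAEX rNIV rABL

theorem hA5M : T_A5M :=
  a5m rSOL rSQ rFNL rCLF rKKP rBRG rLCH rGRP rCRN rDUA hLO rTRC rSTP rNE rACL rAST rASK rAID
    rAEC rSPL rDGL rEXM rCPR rEX2 rIX2 rAEX rNIV rABL

theorem hA5N : T_A5N := a5n hDel rKKP rBRG

theorem hF2 : ∀ (e : ℝ), e0 ≤ e → ∀ (G : Type) [Group G] [Finite G], Kf G →
    ∃ θ ∈ Irr (fit G), θ 1 = 1 ∧ ((fit G).index : ℝ) ≤ acd (fit G) θ ^ e :=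
  (final rKKP rBRG hRED hA5M hA5N rOPT).2.1

theorem hF4 : ∀ (e : ℝ), (∀ (G : Type) [Group G] [Finite G], Kf G →
    ∃ θ ∈ Irr (fit G), θ 1 = 1 ∧ ((fit G).index : ℝ) ≤ acd (fit G) θ ^ e) → e0 ≤ e :=
  (final rKKP rBRG hRED hA5M hA5N rOPT).2.2.2

theorem hRad : ∀ (G : Type) [Group G] [Finite G], ∃ θ ∈ Irr (fit G), θ 1 = 1 ∧
    ((fit G).relIndex (sol G) : ℝ) ≤ acd (fit G) θ ^ ((91 : ℝ) / 25) :=
  fun G _ _ => radical rSOL rCLF rKKP rBRG rLCH rCRN rDUA hLO G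

end FI.All
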