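import Pool.Agent.H6.FI.TargetsA

/-!
# MP_7500ea_al, board fi_modules: assembly of part A, the bound of Pálfy and Wolf
-/

open scoped Classical

namespace FI

theorem c0_pos : 0 < c0 := Real.rpow_pos_of_pos (by norm_num) _

theorem one_le_c0 : 1 ≤ c0 := Real.one_le_rpow (by norm_num) (by norm_num)

theorem PPW.mono {m n : ℕ} (h : PPW n) (hm : m ≤ n) : PPW m :=
  fun R V _ _ _ _ ρ a b c d => h R V ρ a (b.trans hm) c d

theorem PLO.mono {m n : ℕ} (h : PLO n) (hm : m ≤ n) : PLO m :=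
  fun R V _ _ _ _ ρ a b c d => h R V ρ a (b.trans hm) c d

section

variable {R V : Type} [Group R] [AddCommGroup V]

theorem Irred.cr {ρ : R →* AddMonoid.End V} (h : Irred ρ) : CR ρ ⊤ ⊤ := by
  intro X _ hX
  rcases h.2 X hX with rfl | rfl
  · exact ⟨⊤, le_rfl, fun _ _ _ _ => AddSubgroup.mem_top _, by simp, by simp⟩
  · refine ⟨⊥, bot_le, ?_, by simp, by simp⟩
    intro r _ w hw
    rw [AddSubgroup.mem_bot] at hw ⊢
    rw [hw, map_zero]

theorem inv_top (ρ : R →* AddMonoid.End V) (B : Subgroup R) : Inv ρ B ⊤ :=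
  fun _ _ _ _ => AddSubgroup.mem_top _

theorem Inv.mono {ρ : R →* AddMonoid.End V} {B B' : Subgroup R} {W : AddSubgroup V}
    (h : Inv ρ B W) (hB : B' ≤ B) : Inv ρ B' W := fun r hr w hw => h r (hB hr) w hw

theorem Ck_conj {ρ : R →* AddMonoid.End V} {B : Subgroup R} {W : AddSubgroup V}
    (h : Inv ρ B W) (b : R) (hb : b ∈ B) (k : R) (hk : k ∈ Ck ρ W) :
    b * k * b⁻¹ ∈ Ck ρ W := by
  intro w hw
  have h1 := h b⁻¹ (B.inv_mem hb) w hw
  rw [map_mul, map_mul, AddMonoid.End.coe_mul, AddMonoid.End.coe_mul, Function.comp_apply,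
    Function.comp_apply, hk _ h1]
  have h2 : ρ (b * b⁻¹) w = w := by rw [mul_inv_cancel, map_one]; rfl
  rw [map_mul, AddMonoid.End.coe_mul, Function.comp_apply] at h2
  exact h2

theorem Ck_top_normal (ρ : R →* AddMonoid.End V) : (Ck ρ ⊤).Normal :=
  ⟨fun k hk b => Ck_conj (inv_top ρ ⊤) b trivial k hk⟩

theorem card_mul_le [Finite V] {W W' : AddSubgroup V} (h : W ⊓ W' = ⊥) :
    Nat.card W * Nat.card W' ≤ Nat.card V := by
  rw [← Nat.card_prod]
  refine Nat.card_le_card_of_injective (fun p : W × W' => (p.1 : V) + p.2) ?_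
  rintro ⟨a, b⟩ ⟨a', b'⟩ hab
  simp only at hab
  have h1 : (a : V) - a' = b' - b := by
    rw [sub_eq_sub_iff_add_eq_add, hab, add_comm]
  have h2 : (a : V) - a' ∈ W ⊓ W' := by
    refine ⟨W.sub_mem a.2 a'.2, ?_⟩
    rw [h1]
    exact W'.sub_mem b'.2 b.2
  rw [h, AddSubgroup.mem_bot] at h2
  have h3 : (b' : V) - b = 0 := by rw [← h1, h2]
  refine Prod.ext (Subtype.ext (sub_eq_zero.1 h2)) (Subtype.ext (sub_eq_zero.1 h3).symm)

theorem two_le_card [Finite V] {W : AddSubgroup V} (h : W ≠ ⊥) : 2 ≤ Nat.card W := by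
  by_contra hc
  push Not at hc
  have : Nat.card W ≤ 1 := by omega
  exact h (AddSubgroup.eq_bot_of_card_le W this)

/-- the trichotomy -/
theorem trich (MRG : T_MRG) {R V : Type} [Group R] [Finite R] [AddCommGroup V] [Finite V]
    [Nontrivial V] (ρ : R →* AddMonoid.End V) (h : CR ρ ⊤ ⊤) :
    (∃ W W' : AddSubgroup V, Inv ρ ⊤ W ∧ Inv ρ ⊤ W' ∧ W ⊓ W' = ⊥ ∧ W ⊔ W' = ⊤ ∧ W ≠ ⊥ ∧
      W' ≠ ⊥) ∨
    (∃ (H : Subgroup R) (W : R ⧸ H → AddSubgroup V), Imp ρ H W ∧ IsCoatom H) ∨ QPr ρ := by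
  by_cases h1 : ∃ W : AddSubgroup V, Inv ρ ⊤ W ∧ W ≠ ⊥ ∧ W ≠ ⊤
  · left
    obtain ⟨W, hW, hb, ht⟩ := h1
    obtain ⟨W', -, hW', h2, h3⟩ := h W le_top hW
    refine ⟨W, W', hW, hW', h2, h3, hb, ?_⟩
    rintro rfl
    exact ht (by simpa using h3)
  · right
    have hirr : Irred ρ := by
      refine ⟨inferInstance, fun W hW => ?_⟩
      by_contra hc
      push Not at hc
      exact h1 ⟨W, hW, hc.1, hc.2⟩
    by_cases h2 : ∃ (H : Subgroup R) (W : R ⧸ H → AddSubgroup V), Imp ρ H W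
    · left
      obtain ⟨H, W, hI⟩ := h2
      obtain ⟨H', W', h3, h4⟩ := MRG R V ρ H W hI
      exact ⟨H', W', h3, h4⟩
    · right
      exact ⟨hirr, fun H W hI => h2 ⟨H, W, hI⟩⟩

end

/-- primitive permutation groups -/
theorem prm (AFF : T_AFF) {n : ℕ} (hn : PPW n) (R : Type) [Group R] [Finite R]
    (H : Subgroup R) (hs : Group.IsSolvable R) (hH : IsCoatom H) (hi : H.index ≤ n) :
    c0 * H.normalCore.index ≤ (H.index : ℝ) ^ ((13 : ℝ) / 4) := by
  obtain ⟨V, _, _, ρ, p, k, hp, hk, hV, hI, hirr, hc, -⟩ := AFF R H hs hH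
  have h1 := hn R V ρ hs (by rw [hV, ← hI]; exact hi) hirr.1 hirr.cr
  have hV' : (Nat.card V : ℝ) = (H.index : ℝ) := by rw [hV, hI]
  rw [hc]
  push_cast
  rw [hV'] at h1 ⊢
  have h0 : (0 : ℝ) < H.index := by
    rw [hI]; exact_mod_cast pow_pos hp.pos k
  have h2 : (H.index : ℝ) ^ ((13 : ℝ) / 4) = (H.index : ℝ) ^ ((9 : ℝ) / 4) * H.index := by
    rw [show (13 : ℝ) / 4 = 9 / 4 + 1 by norm_num, Real.rpow_add h0, Real.rpow_one]
  rw [h2, ← mul_assoc]
  exact mul_le_mul_of_nonneg_right h1 h0.le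

theorem sq_lt_pow {u ε : ℕ} (hu : 2 ≤ u) (hε : 2 ≤ ε) : ε * ε < (u + 1) ^ ε := by
  have h1 : ε * ε < 3 ^ ε := by
    induction ε, hε using Nat.le_induction with
    | base => norm_num
    | succ k hk ih => rw [pow_succ]; nlinarith
  exact h1.trans_le (Nat.pow_le_pow_left (by omega) _)

/-- the numerical data of a quasi-primitive group -/
structure QN (R V : Type) [Group R] [Finite R] [AddCommGroup V] [Finite V] (u ε g h : ℕ) :
    Prop where
  u1 : 1 ≤ u
  e1 : 1 ≤ ε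
  g1 : 1 ≤ g
  h1 : 1 ≤ h
  card : Nat.card R = g * h * (ε * ε) * u
  pow : (u + 1) ^ ε ≤ Nat.card V
  gu : 2 ≤ u → g + 1 ≤ u
  gu1 : u = 1 → g = 1
  eh : ε = 1 → h = 1
  gal : ε = 1 → 2 ^ g ≤ Nat.card V
  prd : ∀ q : ℕ, q.Prime → q ∣ ε → q ∣ u
  h6 : ε = 2 → h ≤ 6
  hw : 2 ≤ ε → c0 * h ≤ ((ε * ε : ℕ) : ℝ) ^ ((9 : ℝ) / 4)

theorem KSt.inj {R V K : Type} [Group R] [AddCommGroup V] {ρ : R →* AddMonoid.End V}
    {U : Subgroup R} [Field K] [Module K V] {j : U →* Kˣ} (h : KSt ρ U j)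
    (hρ : Function.Injective ρ) : Function.Injective j := by
  intro a b hab
  apply Subtype.ext
  apply hρ
  ext v
  rw [h.act, h.act, hab]

theorem qdata (FLD : T_FLD) (AUT : T_AUT) (GAL : T_GAL) (QDX : T_QDX) (SQR : T_SQR)
    (PRD : T_PRD) (LIN : T_LIN) (PWI : T_PWI) (PW2 : T_PW2)
    (R V : Type) [Group R] [Finite R] [AddCommGroup V] [Finite V] (ρ : R →* AddMonoid.End V)
    (hs : Group.IsSolvable R) (hq : QPr ρ) (hρ : Function.Injective ρ)
    (hP : ∀ m, m < Nat.card V → PPW m) :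
    ∃ (U D : Subgroup R) (K : Type) (_ : Field K) (_ : Finite K) (_ : Module K V)
      (j : U →* Kˣ) (ε : ℕ), KSt ρ U j ∧ QD U D ∧ IsCyclic U ∧
      (∀ A : Subgroup R, A.Normal → (∀ a ∈ A, ∀ b ∈ A, a * b = b * a) → U ≤ A → A = U) ∧
      U.relIndex D = ε * ε ∧
      QN R V (Nat.card U) ε (Subgroup.centralizer (U : Set R)).index
        (D.relIndex (Subgroup.centralizer (U : Set R))) := by
  have : Nontrivial V := hq.1.1
  -- a maximal abelian normal subgroup
  obtain ⟨U, hU⟩ : ∃ U : Subgroup R, Maximal (fun A : Subgroup R => A.Normal ∧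
      (∀ a ∈ A, ∀ b ∈ A, a * b = b * a)) U := by
    apply Set.Finite.exists_maximal (Set.toFinite _)
    refine ⟨⊥, inferInstance, ?_⟩
    intro a ha b hb
    rw [Subgroup.mem_bot] at ha hb
    rw [ha, hb]
  have hUn : U.Normal := hU.prop.1
  have hUab := hU.prop.2
  have hmax : ∀ A : Subgroup R, A.Normal → (∀ a ∈ A, ∀ b ∈ A, a * b = b * a) → U ≤ A →
      A = U := fun A h1 h2 h3 => (hU.eq_of_le ⟨h1, h2⟩ h3).symm
  obtain ⟨K, iK, iF, iM, j, hK⟩ := FLD R V ρ hq U hUn hUab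
  have hj : Function.Injective j := hK.inj hρ
  have hcyc : IsCyclic U := isCyclic_of_injective j hj
  obtain ⟨D, hD⟩ := QDX R U hs hUn hcyc hmax
  obtain ⟨ε, hε0, hε⟩ := SQR R U D hcyc hD
  refine ⟨U, D, K, iK, iF, iM, j, ε, hK, hD, hcyc, hmax, hε, ?_⟩
  have hu1 : 1 ≤ Nat.card U := Nat.card_pos
  have hKu : Nat.card U + 1 ≤ Nat.card K := by
    have h1 : Nat.card U ≤ Nat.card Kˣ := Nat.card_le_card_of_injective j hj
    have := Fintype.ofFinite K
    have h2 : Nat.card Kˣ + 1 = Nat.card K := by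
      rw [Nat.card_eq_fintype_card, Nat.card_eq_fintype_card, Fintype.card_units]
      have : 0 < Fintype.card K := Fintype.card_pos
      omega
    omega
  have hVK : Nat.card V = Nat.card K ^ Module.finrank K V := by
    have := Fintype.ofFinite K
    have := Fintype.ofFinite V
    rw [Nat.card_eq_fintype_card, Nat.card_eq_fintype_card]
    exact Module.card_eq_pow_finrank
  have hεf : ε ≤ Module.finrank K V := by
    have h1 := LIN R V K ρ U D j hρ hK hD
    rw [hε] at h1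
    by_contra hc
    push Not at hc
    have := Nat.mul_self_lt_mul_self hc
    omega
  have hpow : (Nat.card U + 1) ^ ε ≤ Nat.card V := by
    rw [hVK]
    exact (Nat.pow_le_pow_left hKu ε).trans (Nat.pow_le_pow_right (by omega) hεf)
  have hprd : ∀ q : ℕ, q.Prime → q ∣ ε → q ∣ Nat.card U := by
    intro q hq1 hq2
    exact PRD R U D hD q hq1 (by rw [hε]; exact hq2.mul_right ε)
  have hfin : 1 ≤ Module.finrank K V := hε0.trans_le hεf
  have hKV : Nat.card K ≤ Nat.card V := by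
    rw [hVK]
    exact Nat.le_self_pow (by omega) _
  constructor
  · exact hu1
  · exact hε0
  · exact Nat.pos_of_ne_zero Subgroup.index_ne_zero_of_finite
  · exact Nat.pos_of_ne_zero (Subgroup.index_ne_zero_of_finite
      (H := D.subgroupOf (Subgroup.centralizer (U : Set R))))
  · -- the order
    have h1 : Nat.card (Subgroup.centralizer (U : Set R)) *
        (Subgroup.centralizer (U : Set R)).index = Nat.card R := Subgroup.card_mul_index _
    have h2 : Nat.card D * D.relIndex (Subgroup.centralizer (U : Set R)) =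
        Nat.card (Subgroup.centralizer (U : Set R)) := by
      rw [← Subgroup.relIndex_bot_left, ← Subgroup.relIndex_bot_left]
      exact Subgroup.relIndex_mul_relIndex _ _ _ bot_le hD.DC
    have h3 : Nat.card U * U.relIndex D = Nat.card D := by
      rw [← Subgroup.relIndex_bot_left, ← Subgroup.relIndex_bot_left]
      exact Subgroup.relIndex_mul_relIndex _ _ _ bot_le hD.UD
    rw [← h1, ← h2, ← h3, hε]
    ring
  · exact hpow
  · intro hu
    exact AUT R U hUn hcyc hu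
  · intro hu
    have h1 : U = ⊥ := Subgroup.eq_bot_of_card_eq U hu
    have h2 : Subgroup.centralizer (U : Set R) = ⊤ := by
      rw [eq_top_iff]
      intro x _
      rw [Subgroup.mem_centralizer_iff]
      intro y hy
      rw [h1] at hy
      have : y = 1 := by simpa using hy
      rw [this, one_mul, mul_one]
    rw [h2, Subgroup.index_top]
  · intro hε1
    have h1 : D ≤ U := by
      rw [← Subgroup.relIndex_eq_one]
      rw [hε, hε1]
    rw [Subgroup.relIndex_eq_one]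
    intro c hc
    apply hD.cDU c hc
    intro d hd
    have h2 : d * c = c * d := Subgroup.mem_centralizer_iff.1 hc d (h1 hd)
    have h3 : c * d * c⁻¹ * d⁻¹ = 1 := by rw [← h2]; group
    rw [h3]
    exact U.one_mem
  · intro _
    exact (GAL R V K ρ U j hρ hUn hK).trans hKV
  · exact hprd
  · intro hε2
    exact PW2 R U D hD (by rw [hε, hε2])
  · intro hε2
    have hu2 : 2 ≤ Nat.card U := by
      obtain ⟨q, hq1, hq2⟩ := Nat.exists_prime_and_dvd (show ε ≠ 1 by omega)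
      exact hq1.two_le.trans (Nat.le_of_dvd hu1 (hprd q hq1 hq2))
    have h1 : ε * ε < Nat.card V := (sq_lt_pow hu2 hε2).trans_le hpow
    have h2 := PWI R U D hs hD (by rw [hε]; nlinarith) (by rw [hε]; exact hP _ h1)
    rw [hε] at h2
    exact h2

/-- the bound of Pálfy and Wolf -/
theorem pw_all (TRP : T_TRP) (CRW : T_CRW) (CRN : T_CRN) (TWO : T_TWO) (MRG : T_MRG)
    (IMB : T_IMB) (CHP : T_CHP) (AFF : T_AFF) (FAC : T_FAC) (ND : T_ND) (FTH : T_FTH)
    (FLD : T_FLD) (AUT : T_AUT) (GAL : T_GAL) (QDX : T_QDX) (SQR : T_SQR) (PRD : T_PRD)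
    (LIN : T_LIN) (PWI : T_PWI) (PW2 : T_PW2) (NP : T_NP) : ∀ n, PPW n := by
  intro n
  induction n using Nat.strong_induction_on with
  | _ n ih =>
  intro R V _ _ _ _ ρ hs hn hnt hcr
  have ih' : ∀ m, m < Nat.card V → PPW m := fun m hm => ih m (by omega)
  rcases trich MRG ρ hcr with ⟨W, W', hW, hW', h1, h2, h3, h4⟩ | ⟨H, W, hI, hH⟩ | hq
  · -- reducible
    have c1 := card_mul_le h1
    have c2 := two_le_card h3
    have c3 := two_le_card h4
    have c4 : Nat.card W < Nat.card V := by nlinarith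
    have c5 : Nat.card W' < Nat.card V := by nlinarith
    have a1 := TRP _ (ih' _ c4) R V ρ ⊤ W hs le_rfl h3 hW (CRW R V ρ ⊤ ⊤ W hcr le_top hW)
    have a2 := TRP _ (ih' _ c5) R V ρ (Ck ρ W) W' hs le_rfl h4 (hW'.mono le_top)
      (CRN R V ρ ⊤ (Ck ρ W) W' hW' (CRW R V ρ ⊤ ⊤ W' hcr le_top hW') le_top
        (fun b hb k hk => Ck_conj hW b hb k hk))
    rw [Subgroup.relIndex_top_right] at a1
    obtain ⟨e1, -⟩ := TWO R V ρ W W' hW hW' h1 h2
    rw [e1]
    push_cast
    have a3 : ((Nat.card W * Nat.card W' : ℕ) : ℝ) ^ ((9 : ℝ) / 4) ≤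
        (Nat.card V : ℝ) ^ ((9 : ℝ) / 4) :=
      Real.rpow_le_rpow (by positivity) (by exact_mod_cast c1) (by norm_num)
    refine le_trans ?_ a3
    push_cast
    rw [Real.mul_rpow (by positivity) (by positivity)]
    have a4 := mul_le_mul a1 a2 (mul_nonneg c0_pos.le (Nat.cast_nonneg _))
      (Real.rpow_nonneg (Nat.cast_nonneg _) _)
    refine le_trans ?_ a4
    have a5 := one_le_c0
    have a6 : (0 : ℝ) ≤ (Ck ρ W).index := Nat.cast_nonneg _
    have a7 : (0 : ℝ) ≤ (Ck ρ W').relIndex (Ck ρ W) := Nat.cast_nonneg _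
    calc c0 * ((Ck ρ W).index * (Ck ρ W').relIndex (Ck ρ W) : ℝ)
        = c0 * (1 * ((Ck ρ W).index * (Ck ρ W').relIndex (Ck ρ W) : ℝ)) := by ring
      _ ≤ c0 * (c0 * ((Ck ρ W).index * (Ck ρ W').relIndex (Ck ρ W) : ℝ)) := by
          apply mul_le_mul_of_nonneg_left _ c0_pos.le
          exact mul_le_mul_of_nonneg_right a5 (mul_nonneg a6 a7)
      _ = _ := by ring
  · -- imprimitive
    obtain ⟨b1, b2, b3, b4, b5⟩ := IMB R V ρ H W hI hnt
    have := Fintype.ofFinite (R ⧸ H)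
    have hcrB : CR ρ H.normalCore ⊤ := CRN R V ρ ⊤ H.normalCore ⊤ (inv_top ρ ⊤) hcr le_top
      (fun b _ k hk => (inferInstance : H.normalCore.Normal).conj_mem k hk b)
    have key := CHP R V (R ⧸ H) ρ H.normalCore W
      (fun c => (Nat.card (W c) : ℝ) ^ ((9 : ℝ) / 4) / c0) hI.sup b3
      (by
        intro c B' hB' hB''
        rw [le_div_iff₀' c0_pos]
        exact TRP _ (ih' _ (b2 c)) R V ρ B' (W c) hs le_rfl (b1 c) ((b3 c).mono hB')
          (CRN R V ρ H.normalCore B' (W c) (b3 c)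
            (CRW R V ρ H.normalCore ⊤ (W c) hcrB le_top (b3 c)) hB' hB''))
    rw [finprod_eq_prod_of_fintype] at key b5
    rw [Finset.prod_div_distrib, Finset.prod_const, Finset.card_univ,
      Real.finsetProd_rpow _ _ (fun c _ => Nat.cast_nonneg _)] at key
    have b5' : (∏ c, (Nat.card (W c) : ℝ)) = (Nat.card V : ℝ) := by
      rw [← b5]; push_cast; rfl
    rw [b5'] at key
    have hidx : Fintype.card (R ⧸ H) = H.index := by
      rw [Subgroup.index, Nat.card_eq_fintype_card]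
    have hidx2 : 2 ≤ H.index := by
      have h1 : H.index ≠ 0 := Subgroup.index_ne_zero_of_finite
      have h2 : H.index ≠ 1 := fun h => hH.1 (Subgroup.index_eq_one.1 h)
      omega
    have hlt : H.index < Nat.card V := by
      have h1 : 2 ^ H.index ≤ Nat.card V := by
        rw [← b5, ← hidx, ← Finset.card_univ, ← Finset.prod_const]
        exact Finset.prod_le_prod' fun c _ => two_le_card (b1 c)
      exact Nat.lt_two_pow_self.trans_le h1
    have hm := ND H.index H.normalCore.index hidx2 (FAC R H)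
      (prm AFF (ih' _ hlt) R H hs hH le_rfl)
    have hmul : (Ck ρ ⊤).relIndex H.normalCore * H.normalCore.index = (Ck ρ ⊤).index :=
      Subgroup.relIndex_mul_index b4
    rw [← hmul]
    push_cast
    rw [hidx] at key
    have hc := c0_pos
    have h5 : c0 ^ H.index = c0 * c0 ^ (H.index - 1) := by
      rw [← pow_succ']; congr 1; omega
    rw [h5] at key
    have h6 : (0 : ℝ) < c0 ^ (H.index - 1) := by positivity
    have h7 : (0 : ℝ) ≤ (Ck ρ ⊤).relIndex H.normalCore := Nat.cast_nonneg _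
    calc c0 * ((Ck ρ ⊤).relIndex H.normalCore * H.normalCore.index : ℝ)
        ≤ c0 * ((Ck ρ ⊤).relIndex H.normalCore * c0 ^ (H.index - 1)) := by
          apply mul_le_mul_of_nonneg_left _ hc.le
          exact mul_le_mul_of_nonneg_left hm h7
      _ ≤ c0 * ((Nat.card V : ℝ) ^ ((9 : ℝ) / 4) / (c0 * c0 ^ (H.index - 1)) *
            c0 ^ (H.index - 1)) := by
          apply mul_le_mul_of_nonneg_left _ hc.le
          exact mul_le_mul_of_nonneg_right key h6.le
      _ = (Nat.card V : ℝ) ^ ((9 : ℝ) / 4) := by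
          field_simp
  · -- quasi-primitive
    obtain ⟨R', _, _, ρ', hs', hq', hρ', hc', -⟩ := FTH R V ρ hs hq
    obtain ⟨U, D, K, _, _, _, j, ε, hK, hD, -, -, hε, N⟩ := qdata FLD AUT GAL QDX SQR PRD LIN
      PWI PW2 R' V ρ' hs' hq' hρ' ih'
    rw [← hc', N.card]
    exact NP _ _ _ _ _ N.u1 N.e1 N.g1 N.h1 N.pow N.gu N.gu1 N.eh N.gal N.prd N.h6 N.hw

end FI
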