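import Pool.Agent.H6.FI.TargetsB
import Pool.Agent.H6.FI.AsmC

/-!
# MP_7500ea_al, board fi_modules: assembly for the groups with nonabelian chief factors of order 60
-/

open scoped Classical ComplexConjugate

namespace FI

open AMc AMt

theorem kf_clo (ACL : T_ACL) : Clo (fun X [Group X] => Kf X) := ⟨ACL.1, ACL.2⟩

theorem ae_mk {Γ X : Type} [Group Γ] [Group X] {Z : Subgroup Γ} {q : Γ →* X} (hq : CExt Z q)
    {L : Subgroup X} {γ : X →* Equiv.Perm (Fin 5)} (h : AS X L γ) :
    AE Z (L.comap q) (γ.ker.comap q) (γ.comp q) := by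
  constructor
  · exact hq.cen
  · exact h.nor.comap q
  · intro g
    rfl
  · rw [← Subgroup.comap_inf, h.inf]
    ext x
    rw [Subgroup.mem_comap, Subgroup.mem_bot]
    exact hq.ker x
  · rw [← Subgroup.map_map, Subgroup.map_comap_eq_self_of_surjective hq.sur, h.map]

/-- the inequality for central extensions of groups with trivial radical -/
theorem cen_ineq (NE : T_NE) (ACL : T_ACL) (AST : T_AST) (ASK : T_ASK) (AEC : T_AEC)
    (KKP : T_KKP) (CLF : T_CLF) (SPL : T_SPL) (DGL : T_DGL) (EXM : T_EXM) (CPR : T_CPR)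
    (EX2 : T_EX2) (IX2 : T_IX2) (AEX : T_AEX) (NIV : T_NIV) (ABL : T_ABL) (X : Type) [Group X] [Finite X]
    (hX : Kf X) (hs : sol X = ⊥)
    (hD : ∀ n, n < Nat.card X → Delta (fun X [Group X] => Kf X) e0 n)
    (Γ : Type) [Group Γ] [Fintype Γ] (Z : Subgroup Γ) (q : Γ →* X) (hq : CExt Z q)
    (ν : Γ → ℂ) (hν : ν ∈ IrrS Z) : (Nat.card X : ℝ) ^ (1 / e0) * kk ⊤ ν ≤ dd ⊤ ν := by
  obtain ⟨ne1, ne2, ne3⟩ := NE
  have he0 : 0 < e0 := by linarith
  by_cases hnt : Nontrivial X
  swap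
  · rw [not_nontrivial_iff_subsingleton] at hnt
    have h1 : Nat.card X = 1 := Nat.card_of_subsingleton 1
    rw [h1, Nat.cast_one, Real.one_rpow, one_mul]
    exact (KKP Γ Z ⊤ le_top ν hν).2.2
  obtain ⟨L, hL, γ, hA, hKL⟩ := AST X hX hs
  obtain ⟨s1, s2, s3, s4, s5, s6⟩ := ASK X L γ hs hA
  have hAE := ae_mk hq hA
  obtain ⟨a1, a2, a3, a4⟩ := AEC Γ Z _ _ _ hAE
  have hkerX : Nat.card γ.ker * (γ.ker.comap q).index = Nat.card X := by
    rw [Subgroup.index_comap_of_surjective _ hq.sur]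
    exact Subgroup.card_mul_index _
  generalize hc : (Nat.card γ.ker : ℝ) ^ (1 / e0) = c
  have hc0 : 0 ≤ c := by rw [← hc]; positivity
  have hMn : NIn (L.comap q) ⊤ := ⟨le_top, fun u _ g hg => hAE.nor.conj_mem g hg u⟩
  have hZM : Z ≤ L.comap q := by rw [← hAE.inf]; exact inf_le_left
  have hZC : Z ≤ γ.ker.comap q := by rw [← hAE.inf]; exact inf_le_right
  have hZMn : NIn Z (L.comap q) := ⟨hZM, fun u _ g hg => by
    rw [← hAE.cen g hg u, mul_inv_cancel_right]; exact hg⟩
  -- the characters of C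
  have hdC : c * kk (γ.ker.comap q) ν ≤ dd (γ.ker.comap q) ν := by
    have h1 := hD _ s4 Γ Z (γ.ker.comap q) ⟨hZC, fun u _ g hg => by
      rw [← hAE.cen g hg u, mul_inv_cancel_right]; exact hg⟩ ν hν (by
        intro u _
        funext g
        simp only [cj]
        by_cases hg : g ∈ Z
        · rw [← hAE.cen g hg u, mul_inv_cancel_right]
        · obtain ⟨ψ, hψ, rfl⟩ := hν
          rw [ext0, ext0, dif_neg hg, dif_neg]
          intro h
          apply hg
          have h2 := hAE.cen _ h u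
          have h3 : g = u * g * u⁻¹ := by
            have : u * g * u⁻¹ * u = u * (u * g * u⁻¹) := h2
            rw [inv_mul_cancel_right] at this
            exact mul_left_cancel this
          rw [h3]; exact h) γ.ker
      ((q.comp (γ.ker.comap q).subtype).codRestrict γ.ker (fun x => x.2)) (by
        rintro ⟨y, hy⟩
        obtain ⟨x, hx⟩ := hq.sur y
        refine ⟨⟨x, ?_⟩, Subtype.ext hx⟩
        change q x ∈ γ.ker
        rw [hx]; exact hy) (by
        intro x
        rw [← hq.ker]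
        exact Subtype.ext_iff) (ACL.1 _ _ γ.ker.subtype γ.ker.subtype_injective hX) le_rfl
    have h2 : (ν 1).re = 1 := by
      rw [(ABL Γ Z (fun a ha b _ => hAE.cen a ha b) ν hν).1, Complex.one_re]
    rw [s1, Subgroup.index_bot, h2, mul_one, hc] at h1
    exact h1
  rcases a4 with ⟨b1, b2⟩ | ⟨b1, b2, b3, b4⟩
  · -- `Γ = M C`
    obtain ⟨k1, k2⟩ := CPR Γ Z _ _ b1 hAE.inf a1 ν hν
    have hM : 16 / 5 * (kk (L.comap q) ν : ℝ) ≤ dd (L.comap q) ν := by
      rcases AEX Γ Z _ _ _ hAE ν hν with ⟨μ, m1, m2, m3, -⟩ | ⟨m1, m2, -⟩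
      · obtain ⟨n1, n2⟩ := EXM Γ Z _ _ _ hAE ν hν μ m1 m2 m3
        rw [n1, n2]; norm_num
      · rw [m1, m2]; norm_num
    rw [b2] at hkerX
    rw [← hkerX, k1, k2]
    push_cast
    rw [Real.mul_rpow (by positivity) (by norm_num), hc]
    have h3 : (0 : ℝ) ≤ kk (L.comap q) ν := Nat.cast_nonneg _
    have h4 : (0 : ℝ) ≤ kk (γ.ker.comap q) ν := Nat.cast_nonneg _
    have h5 : 0 ≤ c * kk (γ.ker.comap q) ν := mul_nonneg hc0 h4
    calc c * (60 : ℝ) ^ (1 / e0) * (kk (L.comap q) ν * kk (γ.ker.comap q) ν)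
        = (60 : ℝ) ^ (1 / e0) * kk (L.comap q) ν * (c * kk (γ.ker.comap q) ν) := by ring
      _ ≤ (16 / 5 * kk (L.comap q) ν) * (c * kk (γ.ker.comap q) ν) :=
          mul_le_mul_of_nonneg_right (mul_le_mul_of_nonneg_right ne3 h3) h5
      _ ≤ dd (L.comap q) ν * dd (γ.ker.comap q) ν :=
          mul_le_mul hM hdC h5 ((by positivity : (0 : ℝ) ≤ 16 / 5 * kk (L.comap q) ν).trans hM)
  · -- `Γ / C ≅ S₅`
    rw [b3] at hkerX
    rw [← hkerX]
    push_cast
    rw [Real.mul_rpow (by positivity) (by norm_num), hc, ne2]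
    set M := L.comap q with hMdef
    set C := γ.ker.comap q with hCdef
    have hkM : ∀ x : Γ, (QuotientGroup.mk' L) (q x) = 1 ↔ x ∈ M := by
      intro x
      rw [← MonoidHom.mem_ker, QuotientGroup.ker_mk', hMdef, Subgroup.mem_comap]
    -- characters of `Γ` over invariant characters of `M`
    have hT : ∀ φ ∈ IrrS M, (∀ g, cj g φ = φ) → c * (φ 1).re * kk ⊤ φ ≤ dd ⊤ φ := by
      intro φ hφ hinv
      have h1 := hD _ s5 Γ M ⊤ hMn φ hφ (fun u _ => hinv u) (X ⧸ L)
        ((QuotientGroup.mk' L).comp (q.comp (⊤ : Subgroup Γ).subtype)) (by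
          intro y
          obtain ⟨x, rfl⟩ := QuotientGroup.mk'_surjective L y
          obtain ⟨g, rfl⟩ := hq.sur x
          exact ⟨⟨g, trivial⟩, rfl⟩) (fun x => hkM x) hKL le_rfl
      refine le_trans ?_ h1
      have h2 : c ≤ ((sol (X ⧸ L)).index : ℝ) ^ (1 / e0) := by
        rw [← hc]
        exact Real.rpow_le_rpow (by positivity) (by exact_mod_cast s6) (by positivity)
      have h3 : 0 ≤ (φ 1).re := ((DGL Γ M ⊤ hMn).1 φ hφ).le
      exact mul_le_mul_of_nonneg_right (mul_le_mul_of_nonneg_right h2 h3) (Nat.cast_nonneg _)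
    -- characters of `M C`
    have hU : ∀ φ ∈ IrrS M, (∀ g ∈ M ⊔ C, cj g φ = φ) →
        c * (φ 1).re * kk (M ⊔ C) φ ≤ dd (M ⊔ C) φ := by
      intro φ hφ hinv
      have hMC : ∀ x ∈ M ⊔ C, (QuotientGroup.mk' L) (q x) ∈ γ.ker.map (QuotientGroup.mk' L) := by
        intro x hx
        have hmn := hAE.nor
        obtain ⟨m, hm, c', hc', rfl⟩ := Subgroup.mem_sup_of_normal_left.1 hx
        rw [map_mul, map_mul, (hkM m).2 hm, one_mul]
        exact ⟨q c', hc', rfl⟩
      have h1 := hD (Nat.card (γ.ker.map (QuotientGroup.mk' L))) (by rw [s3]; exact s4) Γ M (M ⊔ C)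
        ⟨le_sup_left, fun u _ g hg => hAE.nor.conj_mem g hg u⟩ φ hφ hinv
        (γ.ker.map (QuotientGroup.mk' L))
        (((QuotientGroup.mk' L).comp (q.comp (M ⊔ C).subtype)).codRestrict _
          (fun x => hMC x x.2)) (by
          rintro ⟨y, x, hx, rfl⟩
          obtain ⟨g, rfl⟩ := hq.sur x
          exact ⟨⟨g, (le_sup_right : C ≤ M ⊔ C) hx⟩, rfl⟩) (by
          intro x
          rw [← hkM]
          exact Subtype.ext_iff)
        (ACL.1 _ _ (γ.ker.map (QuotientGroup.mk' L)).subtype (Subgroup.subtype_injective _) hKL)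
        le_rfl
      rw [s2, Subgroup.index_bot, s3, hc] at h1
      exact h1
    rcases AEX Γ Z _ _ _ hAE ν hν with ⟨μ, m1, m2, m3, m4⟩ | ⟨-, -, m3⟩
    · obtain ⟨n1, n2⟩ := EX2 Γ Z _ _ _ hAE b1 ν hν μ m1 m2 m3 m4
      have n3 := IX2 Γ M (M ⊔ C) le_sup_left b2 μ m1
      have n4 := hT μ m1 m4
      have n5 := hU μ m1 (fun g _ => m4 g)
      rw [m2, Complex.one_re, mul_one] at n4 n5
      rw [n1, n2]
      push_cast
      have n6 : (kk ⊤ μ : ℝ) ≤ 2 * kk (M ⊔ C) μ := by exact_mod_cast n3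
      have n7 := mul_le_mul_of_nonneg_left n6 hc0
      nlinarith
    · have key : ∀ φ ∈ IrrS M, Over φ ν → (c * (26 / 7)) * kk ⊤ φ ≤ dd ⊤ φ := by
        intro φ hφ hφν
        have hdeg := m3 φ ⟨hφ, hφν⟩
        have hkk : (0 : ℝ) ≤ kk ⊤ φ := Nat.cast_nonneg _
        by_cases hinv : ∀ g, cj g φ = φ
        · have h4 : 4 ≤ (φ 1).re := by
            rcases hdeg with h | h
            · obtain ⟨g, hg⟩ := NIV Γ Z _ _ _ hAE b1 ν hν φ ⟨hφ, hφν⟩ h
              exact absurd (hinv g) hg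
            · exact h
          refine le_trans ?_ (hT φ hφ hinv)
          apply mul_le_mul_of_nonneg_right _ hkk
          exact mul_le_mul_of_nonneg_left (by linarith) hc0
        · have h2 : 2 ≤ (φ 1).re := by
            rcases hdeg with h | h
            · rw [h]; norm_num
            · linarith
          obtain ⟨c1, c2, c3⟩ := CLF Γ M ⊤ hMn φ hφ
          have hle : M ⊔ C ≤ stab ⊤ φ := by
            apply sup_le c1
            intro x hx
            refine ⟨trivial, ?_⟩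
            funext g
            simp only [cj]
            by_cases hg : g ∈ M
            · rw [← a1 g hg x hx, mul_inv_cancel_right]
            · obtain ⟨ψ, hψ, rfl⟩ := hφ
              rw [ext0, ext0, dif_neg hg, dif_neg]
              intro h
              apply hg
              have := hAE.nor.conj_mem _ h x⁻¹
              have h3 : x⁻¹ * (x * g * x⁻¹) * x⁻¹⁻¹ = g := by group
              rwa [h3] at this
          have hne : stab ⊤ φ ≠ ⊤ := by
            intro h
            apply hinv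
            intro g
            have : g ∈ stab ⊤ φ := by rw [h]; trivial
            exact this.2
          have hidx := Subgroup.relIndex_mul_index hle
          rw [b2] at hidx
          have hi1 : (stab ⊤ φ).index ≠ 1 := fun h => hne (Subgroup.index_eq_one.1 h)
          have hi2 : (stab ⊤ φ).index = 2 := by
            rcases (Nat.dvd_prime Nat.prime_two).1 (Dvd.intro_left _ hidx) with h | h
            · exact absurd h hi1
            · exact h
          rw [hi2] at hidx
          have hi3 : (M ⊔ C).relIndex (stab ⊤ φ) = 1 := by omega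
          have heq : stab ⊤ φ = M ⊔ C := le_antisymm (Subgroup.relIndex_eq_one.1 hi3) hle
          rw [heq, Subgroup.relIndex_top_right, b2] at c3
          rw [heq] at c2
          have h5 := hU φ hφ (fun g hg => by
            have : g ∈ stab ⊤ φ := by rw [heq]; exact hg
            exact this.2)
          rw [c3, ← c2]
          push_cast
          have h6 : (0 : ℝ) ≤ kk (M ⊔ C) φ := Nat.cast_nonneg _
          have h7 := mul_nonneg hc0 h6
          nlinarith
      exact SPL Γ Z M ⊤ hZM hMn ν hν _ key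

/-- the inequalities for the class -/
theorem kf_delta (SOL : T_SOL) (SQ : T_SQ) (TRC : T_TRC) (STP : T_STP) (NE : T_NE)
    (ACL : T_ACL) (AST : T_AST) (ASK : T_ASK) (AID : T_AID) (AEC : T_AEC)
    (KKP : T_KKP) (CLF : T_CLF) (SPL : T_SPL) (DGL : T_DGL) (EXM : T_EXM) (CPR : T_CPR)
    (EX2 : T_EX2) (IX2 : T_IX2) (AEX : T_AEX) (NIV : T_NIV) (ABL : T_ABL) :
    ∀ n, Delta (fun X [Group X] => Kf X) e0 n := by
  have he : 91 / 25 ≤ e0 := NE.1
  intro n
  induction n using Nat.strong_induction_on with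
  | _ n ih =>
  refine delta SOL SQ TRC CLF SPL DGL STP _ (kf_clo ACL) e0 (by linarith) n
    (AID e0 (by linarith)) ?_ n le_rfl
  intro X _ _ hX hn hs Γ _ _ Z q hq ν hν
  exact cen_ineq NE ACL AST ASK AEC KKP CLF SPL DGL EXM CPR EX2 IX2 AEX NIV ABL X hX hs
    (fun m hm => ih m (by omega)) Γ Z q hq ν hν

/-- the theorem -/
theorem a5m (SOL : T_SOL) (SQ : T_SQ) (FNL : T_FNL) (CLF : T_CLF) (KKP : T_KKP)
    (BRG : T_BRG) (LCH : T_LCH) (GRP : T_GRP) (CRN : T_CRN) (DUA : T_DUA)
    (hLO : ∀ n, PLO n) (TRC : T_TRC) (STP : T_STP) (NE : T_NE)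
    (ACL : T_ACL) (AST : T_AST) (ASK : T_ASK) (AID : T_AID) (AEC : T_AEC)
    (SPL : T_SPL) (DGL : T_DGL) (EXM : T_EXM) (CPR : T_CPR)
    (EX2 : T_EX2) (IX2 : T_IX2) (AEX : T_AEX) (NIV : T_NIV) (ABL : T_ABL) : T_A5M := by
  intro G _ _ hG
  have he : 91 / 25 ≤ e0 := NE.1
  exact red_core SOL FNL CLF KKP BRG LCH GRP CRN DUA hLO (fun X [Group X] => Kf X)
    (kf_clo ACL) e0 he (AID e0 (by linarith))
    (kf_delta SOL SQ TRC STP NE ACL AST ASK AID AEC KKP CLF SPL DGL EXM CPR EX2 IX2 AEX NIV ABL)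
    G hG

end FI
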