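import Pool.Agent.H6.FI.AsmF

/-!
# MP_7500ea_al: the solvable radical of an arbitrary finite group, and the final statement
-/

open scoped Classical ComplexConjugate

namespace FI

open AMc AMt

/-- for every finite group: the index of the Fitting subgroup in the solvable radical -/
theorem radical (SOL : T_SOL) (CLF : T_CLF) (KKP : T_KKP)
    (BRG : T_BRG) (LCH : T_LCH) (CRN : T_CRN) (DUA : T_DUA)
    (hLO : ∀ n, PLO n) (G : Type) [Group G] [Finite G] :
    ∃ θ ∈ Irr (fit G), θ 1 = 1 ∧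
      ((fit G).relIndex (sol G) : ℝ) ≤ acd (fit G) θ ^ ((91 : ℝ) / 25) := by
  have := Fintype.ofFinite G
  obtain ⟨l, hl⟩ := lam CRN SOL DUA hLO G
  have hθI : (fun a : fit G => ((l a : ℂˣ) : ℂ)) ∈ Irr (fit G) := LCH (fit G) l
  refine ⟨_, hθI, by simp, ?_⟩
  obtain ⟨hθS, hacd⟩ := BRG G (fit G) _ hθI
  generalize hθ' : ext0 (fit G) (fun a : fit G => ((l a : ℂˣ) : ℂ)) = θ' at hθS hacd
  have hnF : (fit G).Normal := fit_normal G
  have hv : ∀ g, g ∉ fit G → θ' g = 0 := by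
    intro g hg
    rw [← hθ', ext0, dif_neg hg]
  have hv' : ∀ a : fit G, θ' a = ((l a : ℂˣ) : ℂ) := by
    intro a
    rw [← hθ', ext0, dif_pos a.2]
  have hnin : NIn (fit G) ⊤ := ⟨le_top, fun u _ g hg => hnF.conj_mem g hg u⟩
  obtain ⟨c1, c2, c3⟩ := CLF G (fit G) ⊤ hnin θ' hθS
  have hTmem : ∀ g, g ∈ stab ⊤ θ' ↔ ∀ a b : fit G, (b : G) = g * a * g⁻¹ → l b = l a := by
    intro g
    constructor
    · rintro ⟨-, hg⟩ a b hab
      have h1 := congrFun hg (a : G)
      simp only [cj] at h1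
      rw [← hab, hv', hv'] at h1
      exact Units.ext h1
    · intro h
      refine ⟨trivial, ?_⟩
      funext x
      simp only [cj]
      by_cases hx : x ∈ fit G
      · have h1 := h ⟨x, hx⟩ ⟨g * x * g⁻¹, hnF.conj_mem x hx g⟩ rfl
        have h2 := hv' ⟨x, hx⟩
        have h3 := hv' ⟨g * x * g⁻¹, hnF.conj_mem x hx g⟩
        simp only at h2 h3
        rw [h2, h3, h1]
      · rw [hv x hx, hv]
        intro h1
        apply hx
        have h2 := hnF.conj_mem _ h1 g⁻¹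
        have h3 : g⁻¹ * (g * x * g⁻¹) * g⁻¹⁻¹ = x := by group
        rwa [h3] at h2
  refine (hl (stab ⊤ θ') hTmem).trans ?_
  have h1 : ((stab ⊤ θ').relIndex (sol G) : ℝ) ≤ ((stab ⊤ θ').index : ℝ) := by
    exact_mod_cast rel_le_idx _ _
  refine Real.rpow_le_rpow (Nat.cast_nonneg _) (h1.trans ?_) (by norm_num)
  rw [Subgroup.relIndex_top_right] at c3
  obtain ⟨-, k1, -⟩ := KKP G (fit G) ⊤ le_top θ' hθS
  obtain ⟨-, -, k3⟩ := KKP G (fit G) (stab ⊤ θ') c1 θ' hθS
  have k2 : (0 : ℝ) < kk ⊤ θ' := by exact_mod_cast k1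
  refine le_of_mul_le_mul_right ?_ k2
  rw [hacd, c3, ← c2]
  exact mul_le_mul_of_nonneg_left k3 (Nat.cast_nonneg _)

/-- the exponent is smaller than 4 -/
theorem e0_lt : e0 < 4 := by
  rw [e0, div_lt_iff₀ (Real.log_pos (by norm_num))]
  have h : Real.log 120 < Real.log ((26 / 7 : ℝ) ^ (4 : ℕ)) :=
    Real.log_lt_log (by norm_num) (by norm_num)
  rw [Real.log_pow] at h
  exact_mod_cast h

end FI
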