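import Mathlib

/-!
# The Fitting index and the average degree over a linear character (MP_7500ea_al): definitions A
(solvable linear groups)
-/

open scoped Classical

namespace FI

/-- `24 ^ (1/3)` -/
noncomputable def c0 : ℝ := (24 : ℝ) ^ ((1 : ℝ) / 3)

/-! ## Groups acting on finite abelian groups: `ρ : R →* AddMonoid.End V` -/

section

variable {R V : Type} [Group R] [AddCommGroup V]

/-- the stabiliser of a vector -/
def St (ρ : R →* AddMonoid.End V) (x : V) : Subgroup R where
  carrier := {r | ρ r x = x}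
  mul_mem' := by
    intro a b (ha : ρ a x = x) (hb : ρ b x = x)
    change ρ (a * b) x = x
    rw [map_mul, AddMonoid.End.coe_mul, Function.comp_apply, hb, ha]
  one_mem' := by
    change ρ 1 x = x
    rw [map_one]; rfl
  inv_mem' := by
    intro a (ha : ρ a x = x)
    change ρ a⁻¹ x = x
    have h : ρ (a⁻¹ * a) x = x := by
      rw [inv_mul_cancel, map_one]; rfl
    rw [map_mul, AddMonoid.End.coe_mul, Function.comp_apply, ha] at h
    exact h

theorem mem_St {ρ : R →* AddMonoid.End V} {x : V} {r : R} : r ∈ St ρ x ↔ ρ r x = x := Iff.rfl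

/-- the kernel of the action on the subgroup `W` -/
def Ck (ρ : R →* AddMonoid.End V) (W : AddSubgroup V) : Subgroup R where
  carrier := {r | ∀ w ∈ W, ρ r w = w}
  mul_mem' := by
    intro a b ha hb w hw
    exact (St ρ w).mul_mem (ha w hw) (hb w hw)
  one_mem' := fun w _ => (St ρ w).one_mem
  inv_mem' := by
    intro a ha w hw
    exact (St ρ w).inv_mem (ha w hw)

theorem mem_Ck {ρ : R →* AddMonoid.End V} {W : AddSubgroup V} {r : R} :
    r ∈ Ck ρ W ↔ ∀ w ∈ W, ρ r w = w := Iff.rfl

/-- `W` is invariant under the subgroup `B` of `R` -/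
def Inv (ρ : R →* AddMonoid.End V) (B : Subgroup R) (W : AddSubgroup V) : Prop :=
  ∀ r ∈ B, ∀ w ∈ W, ρ r w ∈ W

/-- the action of the subgroup `B` on the invariant subgroup `W` is completely reducible -/
def CR (ρ : R →* AddMonoid.End V) (B : Subgroup R) (W : AddSubgroup V) : Prop :=
  ∀ X : AddSubgroup V, X ≤ W → Inv ρ B X → ∃ X' : AddSubgroup V, X' ≤ W ∧ Inv ρ B X' ∧
    X ⊓ X' = ⊥ ∧ X ⊔ X' = W

/-- the action of `R` on `V` is irreducible -/
def Irred (ρ : R →* AddMonoid.End V) : Prop :=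
  Nontrivial V ∧ ∀ W : AddSubgroup V, Inv ρ ⊤ W → W = ⊥ ∨ W = ⊤

/-- `V` is the direct sum of the subgroups `W c`, `c ∈ R ⧸ H`, which `R` permutes -/
structure Imp (ρ : R →* AddMonoid.End V) (H : Subgroup R) (W : R ⧸ H → AddSubgroup V) : Prop where
  ne : H ≠ ⊤
  perm : ∀ (r : R) (c : R ⧸ H) (w : V), w ∈ W c → ρ r w ∈ W (r • c)
  ind : iSupIndep W
  sup : iSup W = ⊤

/-- the setwise stabiliser of a set of cosets -/
def StA {H : Subgroup R} (A : Finset (R ⧸ H)) : Subgroup R where
  carrier := {r | ∀ c : R ⧸ H, r • c ∈ A ↔ c ∈ A}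
  mul_mem' := by
    intro a b ha hb c
    rw [mul_smul, ha, hb]
  one_mem' := by
    intro c
    rw [one_smul]
  inv_mem' := by
    intro a ha c
    have h := ha (a⁻¹ • c)
    rw [smul_inv_smul] at h
    exact h.symm

theorem mem_StA {H : Subgroup R} {A : Finset (R ⧸ H)} {r : R} :
    r ∈ StA A ↔ ∀ c : R ⧸ H, r • c ∈ A ↔ c ∈ A := Iff.rfl

/-- irreducible and not induced from a proper subgroup -/
def QPr (ρ : R →* AddMonoid.End V) : Prop :=
  Irred ρ ∧ ∀ (H : Subgroup R) (W : R ⧸ H → AddSubgroup V), ¬ Imp ρ H W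

end
end FI
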