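import Pool.Agent.H3.AM.Defs

/-!
# The Fitting index and the average degree over a linear character (MP_7500ea_al): definitions
of the statement
-/

open scoped Classical ComplexConjugate

namespace FI

/-- the Fitting subgroup: generated by the nilpotent normal subgroups -/
def fit (G : Type) [Group G] : Subgroup G := sSup {N : Subgroup G | N.Normal ∧ Group.IsNilpotent N}

/-- the solvable radical: generated by the solvable normal subgroups -/
def sol (G : Type) [Group G] : Subgroup G := sSup {N : Subgroup G | N.Normal ∧ Group.IsSolvable N}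

/-- the irreducible characters of `G` lying over the character `θ` of `N` -/
def IrrO {G : Type} [Group G] (N : Subgroup G) (θ : N → ℂ) : Set (G → ℂ) :=
  {χ | χ ∈ AMc.Irr G ∧ ∑ᶠ n : N, χ n * conj (θ n) ≠ 0}

/-- the average degree of the irreducible characters of `G` lying over `θ` -/
noncomputable def acd {G : Type} [Group G] (N : Subgroup G) (θ : N → ℂ) : ℝ :=
  (∑ᶠ χ ∈ IrrO N θ, (χ 1).re) / (IrrO N θ).ncard

theorem normal_sSup {G : Type} [Group G] (s : Set (Subgroup G)) (h : ∀ N ∈ s, N.Normal) :
    (sSup s).Normal := by
  refine ⟨fun n hn g => ?_⟩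
  have key : sSup s ≤ (sSup s).comap (MulAut.conj g).toMonoidHom := by
    apply sSup_le
    intro N hN x hx
    exact (le_sSup hN : N ≤ sSup s) ((h N hN).conj_mem x hx g)
  exact key hn

instance sol_normal (G : Type) [Group G] : (sol G).Normal := normal_sSup _ fun _ h => h.1

instance fit_normal (G : Type) [Group G] : (fit G).Normal := normal_sSup _ fun _ h => h.1

/-- for the sections `S / Sol(S)`, `S ≤ Y`: the average degree of the characters of central
extensions over linear characters, and the indices of the subgroups -/
structure Good (e : ℝ) (Y : Type) [Group Y] : Prop where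
  chr : ∀ (S : Subgroup Y) (X : Type) [Group X] [Finite X] (q : X →* S ⧸ sol S),
    Function.Surjective q → q.ker ≤ Subgroup.center X → ∀ ν ∈ AMc.Irr q.ker,
    ((sol S).index : ℝ) ≤ acd q.ker ν ^ e
  idx : ∀ T S : Subgroup Y, T ≤ S →
    ((sol S).index : ℝ) ≤ (T.relIndex S : ℝ) ^ e * ((sol T).index : ℝ)

end FI
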