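import Pool.Agent.H6.FI.TargetsC

/-!
# MP_7500ea_al, board fi_modules: targets B (groups with nonabelian chief factors of order 60)
-/

open scoped Classical ComplexConjugate

namespace FI

open AMc AMt

/-- the alternating group `A₅` in `S₅` -/
abbrev A5 : Subgroup (Equiv.Perm (Fin 5)) := alternatingGroup (Fin 5)

/-- the optimal exponent -/
noncomputable def e0 : ℝ := Real.log 120 / Real.log (26 / 7)

/-- `X` has a solvable normal subgroup with factor group isomorphic to a subgroup of a power of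
`S₅` -/
def Kf (X : Type) [Group X] : Prop :=
  ∃ (n : ℕ) (f : X →* (Fin n → Equiv.Perm (Fin 5))), Group.IsSolvable f.ker

/-! ## Group theory -/

/-- NE: numerical facts on the exponent -/
def T_NE : Prop := 91 / 25 ≤ e0 ∧ (120 : ℝ) ^ (1 / e0) = 26 / 7 ∧ (60 : ℝ) ^ (1 / e0) ≤ 16 / 5

/-- S5S: subgroups of `S₅` -/
def T_S5S : Prop := ∀ T G : Subgroup (Equiv.Perm (Fin 5)), T ≤ G → A5 ≤ G → ¬ A5 ≤ T →
  Nat.card T ≤ 24 ∧ 5 ≤ T.relIndex G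

/-- S5R: a subgroup of `S₅` has no solvable normal subgroups or does not contain `A₅` -/
def T_S5R : Prop := ∀ G N : Subgroup (Equiv.Perm (Fin 5)), A5 ≤ G → N ≤ G →
  (∀ g ∈ G, ∀ n ∈ N, g * n * g⁻¹ ∈ N) → N ≠ ⊥ → A5 ≤ N

/-- S5V: solvable subgroups of `S₅` -/
def T_S5V : Prop := ∀ T : Subgroup (Equiv.Perm (Fin 5)), Group.IsSolvable T ↔ ¬ A5 ≤ T

/-- AKR: the kernel is the radical -/
def T_AKR : Prop := ∀ (X : Type) [Group X] [Finite X], Kf X →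
  ∃ (n : ℕ) (f : X →* (Fin n → Equiv.Perm (Fin 5))), f.ker = sol X ∧
    ∀ i, (∀ x, f x i = 1) ∨ ∀ σ ∈ A5, ∃ x, f x i = σ

/-- ACL: closure of the class -/
def T_ACL : Prop :=
  (∀ (X' X : Type) [Group X'] [Finite X'] [Group X] [Finite X] (f : X' →* X),
    Function.Injective f → Kf X → Kf X') ∧
  (∀ (X X' : Type) [Group X'] [Finite X'] [Group X] [Finite X] (f : X →* X'),
    Function.Surjective f → Group.IsSolvable f.ker → Kf X → Kf X')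

/-- a normal subgroup `L ≅ A₅` with the action `γ` of `X` -/
structure AS (X : Type) [Group X] (L : Subgroup X) (γ : X →* Equiv.Perm (Fin 5)) : Prop where
  nor : L.Normal
  inf : L ⊓ γ.ker = ⊥
  map : L.map γ = A5

/-- AST: structure of the groups with trivial radical -/
def T_AST : Prop := ∀ (X : Type) [Group X] [Finite X] [Nontrivial X], Kf X → sol X = ⊥ →
  ∃ (L : Subgroup X) (_ : L.Normal) (γ : X →* Equiv.Perm (Fin 5)), AS X L γ ∧ Kf (X ⧸ L)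

/-- ASK: the kernel of `γ` -/
def T_ASK : Prop := ∀ (X : Type) [Group X] [Finite X] (L : Subgroup X) [L.Normal]
  (γ : X →* Equiv.Perm (Fin 5)), sol X = ⊥ → AS X L γ →
  sol γ.ker = ⊥ ∧ sol (γ.ker.map (QuotientGroup.mk' L)) = ⊥ ∧
  Nat.card (γ.ker.map (QuotientGroup.mk' L)) = Nat.card γ.ker ∧
  Nat.card γ.ker < Nat.card X ∧ Nat.card (X ⧸ L) < Nat.card X ∧
  Nat.card γ.ker ≤ (sol (X ⧸ L)).index

/-- AID: the condition on the indices -/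
def T_AID : Prop := ∀ e : ℝ, 3 ≤ e → ∀ (X : Type) [Group X] [Finite X], Kf X →
  ∀ T : Subgroup X, ((sol X).index : ℝ) ≤ (T.index : ℝ) ^ e * ((sol T).index : ℝ)

/-- central extension with `M / Z ≅ A₅`, `C / Z` the kernel of the action on `M / Z` -/
structure AE {Γ : Type} [Group Γ] (Z M C : Subgroup Γ) (δ : Γ →* Equiv.Perm (Fin 5)) : Prop where
  cen : ∀ z ∈ Z, ∀ g, z * g = g * z
  nor : M.Normal
  ker : ∀ g, g ∈ C ↔ δ g = 1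
  inf : M ⊓ C = Z
  map : M.map δ = A5

/-- AEC: group theory of the central extensions -/
def T_AEC : Prop := ∀ (Γ : Type) [Group Γ] [Finite Γ] (Z M C : Subgroup Γ)
  (δ : Γ →* Equiv.Perm (Fin 5)), AE Z M C δ →
  (∀ m ∈ M, ∀ c ∈ C, m * c = c * m) ∧ Z.relIndex M = 60 ∧ M ≤ Z ⊔ ⁅M, M⁆ ∧
  ((M ⊔ C = ⊤ ∧ C.index = 60) ∨
    (Function.Surjective δ ∧ (M ⊔ C).index = 2 ∧ C.index = 120 ∧ ∀ g, g ∈ M ⊔ C ↔ δ g ∈ A5))

/-! ## Characters of `A₅` and `S₅` -/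

/-- restriction of a function to a subgroup, extended by zero -/
noncomputable def rsf {Γ : Type} [Group Γ] (M : Subgroup Γ) (τ : Γ → ℂ) : Γ → ℂ :=
  fun g => if g ∈ M then τ g else 0

/-- the characters of `A₅` -/
structure A5T (b4 b5 c3 c3' : Equiv.Perm (Fin 5) → ℂ) : Prop where
  h4 : b4 ∈ Irr (Equiv.Perm (Fin 5))
  h5 : b5 ∈ Irr (Equiv.Perm (Fin 5))
  d4 : b4 1 = 4
  d5 : b5 1 = 5
  d3 : c3 1 = 3
  d3' : c3' 1 = 3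
  ne : c3 ≠ c3'
  all : ∀ β, β ∈ IrrS A5 ↔ β = rsf A5 (fun _ => 1) ∨ β = rsf A5 b4 ∨ β = rsf A5 b5 ∨ β = c3 ∨
    β = c3'
  odd : ∀ σ, σ ∉ A5 → cj σ c3 = c3' ∧ cj σ c3' = c3

/-- A5C: the number of conjugacy classes of `A₅` -/
def T_A5C : Prop := Nat.card (ConjClasses A5) = 5

/-- A5B: the characters of degree 4 and 5 of `S₅` -/
def T_A5B : Prop := ∃ b4 b5 : Equiv.Perm (Fin 5) → ℂ, b4 ∈ Irr (Equiv.Perm (Fin 5)) ∧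
  b5 ∈ Irr (Equiv.Perm (Fin 5)) ∧ b4 1 = 4 ∧ b5 1 = 5 ∧ rsf A5 b4 ∈ IrrS A5 ∧
  rsf A5 b5 ∈ IrrS A5

/-- A5T: the characters of `A₅` -/
def T_A5T : Prop := ∃ b4 b5 c3 c3' : Equiv.Perm (Fin 5) → ℂ, A5T b4 b5 c3 c3'

/-! ## Characters of the central extensions -/

/-- ABL: characters of abelian groups -/
def T_ABL : Prop := ∀ (Γ : Type) [Group Γ] [Fintype Γ] (Z : Subgroup Γ),
  (∀ a ∈ Z, ∀ b ∈ Z, a * b = b * a) → ∀ ν ∈ IrrS Z, ν 1 = 1 ∧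
    ∀ a ∈ Z, ∀ b ∈ Z, ν (a * b) = ν a * ν b

/-- GIS: multiplication by an extendible character (Gallagher, Isaacs) -/
def T_GIS : Prop := ∀ (Γ : Type) [Group Γ] [Fintype Γ] (M U : Subgroup Γ), NIn M U →
  ∀ ψ ∈ IrrS M, ψ 1 = 1 → (∀ u ∈ U, cj u ψ = ψ) → ∀ τ : Γ → ℂ, IsChar U (fun u => τ u) →
  rsf M τ ∈ IrrS M →
  (fun g => ψ g * τ g) ∈ IrrS M ∧ (∀ u ∈ U, cj u (fun g => ψ g * τ g) = fun g => ψ g * τ g) ∧
  kk U (fun g => ψ g * τ g) = kk U ψ ∧ dd U (fun g => ψ g * τ g) = (τ 1).re * dd U ψ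

/-- IMN: the characters of `M` if `ν` extends -/
def T_IMN : Prop := ∀ (Γ : Type) [Group Γ] [Fintype Γ] (Z M C : Subgroup Γ)
  (δ : Γ →* Equiv.Perm (Fin 5)), AE Z M C δ → ∀ ν ∈ IrrS Z, ∀ μ ∈ IrrS M, μ 1 = 1 → Over μ ν →
  (∀ β ∈ IrrS A5, (fun g => μ g * β (δ g)) ∈ Ab M ν) ∧
  (∀ φ ∈ Ab M ν, ∃ β ∈ IrrS A5, φ = fun g => μ g * β (δ g)) ∧
  (∀ β ∈ IrrS A5, ∀ β' ∈ IrrS A5, (∀ g, μ g * β (δ g) = μ g * β' (δ g)) → β = β')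

/-- EXM: numbers and degrees if `ν` extends -/
def T_EXM : Prop := ∀ (Γ : Type) [Group Γ] [Fintype Γ] (Z M C : Subgroup Γ)
  (δ : Γ →* Equiv.Perm (Fin 5)), AE Z M C δ → ∀ ν ∈ IrrS Z, ∀ μ ∈ IrrS M, μ 1 = 1 → Over μ ν →
  kk M ν = 5 ∧ dd M ν = 16

/-- CPR: central products -/
def T_CPR : Prop := ∀ (Γ : Type) [Group Γ] [Fintype Γ] (Z M C : Subgroup Γ), M ⊔ C = ⊤ →
  M ⊓ C = Z → (∀ m ∈ M, ∀ c ∈ C, m * c = c * m) → ∀ ν ∈ IrrS Z,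
  kk ⊤ ν = kk M ν * kk C ν ∧ dd ⊤ ν = dd M ν * dd C ν

/-- EX2: the characters of `Γ` if `ν` extends and `Γ / C ≅ S₅` -/
def T_EX2 : Prop := ∀ (Γ : Type) [Group Γ] [Fintype Γ] (Z M C : Subgroup Γ)
  (δ : Γ →* Equiv.Perm (Fin 5)), AE Z M C δ → Function.Surjective δ → ∀ ν ∈ IrrS Z,
  ∀ μ ∈ IrrS M, μ 1 = 1 → Over μ ν → (∀ g, cj g μ = μ) →
  kk ⊤ ν = 3 * kk ⊤ μ + kk (M ⊔ C) μ ∧ dd ⊤ ν = 10 * dd ⊤ μ + 6 * dd (M ⊔ C) μ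

/-- IX2: subgroups of index 2 -/
def T_IX2 : Prop := ∀ (Γ : Type) [Group Γ] [Fintype Γ] (M V : Subgroup Γ), M ≤ V →
  V.index = 2 → ∀ ψ ∈ IrrS M, kk ⊤ ψ ≤ 2 * kk V ψ

/-- EX1: extension of `ν` -/
def T_EX1 : Prop := ∀ (Γ : Type) [Group Γ] [Fintype Γ] (Z M C : Subgroup Γ)
  (δ : Γ →* Equiv.Perm (Fin 5)), AE Z M C δ → ∀ ν ∈ IrrS Z, (∀ z ∈ Z ⊓ ⁅M, M⁆, ν z = 1) →
  ∃ μ ∈ IrrS M, μ 1 = 1 ∧ Over μ ν ∧ ∀ g, cj g μ = μ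

/-- DET: determinants -/
def T_DET : Prop := ∀ (Γ : Type) [Group Γ] [Fintype Γ] (Z M : Subgroup Γ), Z ≤ M →
  (∀ z ∈ Z, ∀ g ∈ M, z * g = g * z) → ∀ ν ∈ IrrS Z, ∀ φ ∈ IrrS M, Over φ ν →
  ∀ n : ℕ, φ 1 = n → ∀ z ∈ Z ⊓ ⁅M, M⁆, ν z ^ n = 1

/-- SSQ: sum of the squares of the degrees -/
def T_SSQ : Prop := ∀ (Γ : Type) [Group Γ] [Fintype Γ] (Z M : Subgroup Γ), Z ≤ M →
  (∀ z ∈ Z, ∀ g ∈ M, z * g = g * z) → ∀ ν ∈ IrrS Z,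
  ∑ᶠ χ ∈ Ab M ν, χ 1 * χ 1 = (Z.relIndex M : ℂ)

/-- KCN: the number of characters -/
def T_KCN : Prop := ∀ (Γ : Type) [Group Γ] [Fintype Γ] (Z M : Subgroup Γ), Z ≤ M →
  (∀ z ∈ Z, ∀ g ∈ M, z * g = g * z) → ∀ (Y : Type) [Group Y] [Finite Y] (q : M →* Y),
  Function.Surjective q → (∀ x : M, q x = 1 ↔ (x : Γ) ∈ Z) → ∀ ν ∈ IrrS Z,
  kk M ν ≤ Nat.card (ConjClasses Y)

/-- AR: arithmetic -/
def T_AR : Prop := ∀ (ι : Type) (s : Finset ι) (d : ι → ℕ), s.card ≤ 5 →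
  (∀ i ∈ s, 0 < d i ∧ 2 ∣ d i) → ∑ i ∈ s, d i * d i = 60 → s.card = 4 ∧ ∑ i ∈ s, d i = 14

/-- AEX: the dichotomy -/
def T_AEX : Prop := ∀ (Γ : Type) [Group Γ] [Fintype Γ] (Z M C : Subgroup Γ)
  (δ : Γ →* Equiv.Perm (Fin 5)), AE Z M C δ → ∀ ν ∈ IrrS Z,
  (∃ μ ∈ IrrS M, μ 1 = 1 ∧ Over μ ν ∧ ∀ g, cj g μ = μ) ∨
  (kk M ν = 4 ∧ dd M ν = 14 ∧ ∀ φ ∈ Ab M ν, φ 1 = 2 ∨ 4 ≤ (φ 1).re)

/-- NIV: characters of degree 2 are not invariant -/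
def T_NIV : Prop := ∀ (Γ : Type) [Group Γ] [Fintype Γ] (Z M C : Subgroup Γ)
  (δ : Γ →* Equiv.Perm (Fin 5)), AE Z M C δ → Function.Surjective δ → ∀ ν ∈ IrrS Z,
  ∀ φ ∈ Ab M ν, φ 1 = 2 → ∃ g, cj g φ ≠ φ

/-- the theorem for groups with nonabelian chief factors of order 60 -/
def T_A5M : Prop := ∀ (G : Type) [Group G] [Finite G], Kf G →
  ∃ θ ∈ Irr (fit G), θ 1 = 1 ∧ ((fit G).index : ℝ) ≤ acd (fit G) θ ^ e0

/-- the theorem on the average degree -/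
def T_A5N : Prop := ∀ (G : Type) [Group G] [Finite G] (N : Subgroup G), ∀ θ ∈ Irr N,
  (∀ g : G, ∀ a b : N, (b : G) = g * a * g⁻¹ → θ b = θ a) →
  ∀ (Y : Type) [Group Y] [Finite Y] (q : G →* Y), Kf Y → Function.Surjective q →
  q.ker = N → (θ 1).re * ((sol Y).index : ℝ) ^ (1 / e0) ≤ acd N θ

/-- OPT: the symmetric group of degree 5 -/
def T_OPT : Prop := (fit (Equiv.Perm (Fin 5))).index = 120 ∧
  ∀ θ ∈ Irr (fit (Equiv.Perm (Fin 5))), acd (fit (Equiv.Perm (Fin 5))) θ = 26 / 7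

end FI
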