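import Pool.Agent.H6.FI.TargetsA
import Pool.Agent.H6.FI.DefsC
import Pool.Agent.H10.T2.Defs

/-!
# MP_7500ea_al, board fi_modules: targets C (Fitting subgroup, radical, characters)
-/

open scoped Classical ComplexConjugate

namespace FI

open AMc AMt

/-! ## The solvable radical -/

/-- SOL: the radical is solvable and contains the solvable normal subgroups -/
def T_SOL : Prop := ∀ (G : Type) [Group G] [Finite G], Group.IsSolvable (sol G) ∧
  (∀ N : Subgroup G, N.Normal → Group.IsSolvable N → N ≤ sol G) ∧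
  (sol G ≠ ⊥ → ∃ L : Subgroup G, L.Normal ∧ (∀ a ∈ L, ∀ b ∈ L, a * b = b * a) ∧ L ≠ ⊥) ∧
  sol (G ⧸ sol G) = ⊥

/-- SQ: quotients by solvable normal subgroups -/
def T_SQ : Prop := ∀ (A B : Type) [Group A] [Finite A] [Group B] [Finite B] (f : A →* B),
  Function.Surjective f → Group.IsSolvable f.ker → (sol A).index = (sol B).index ∧
    (sol B).comap f = sol A

/-- `X / Sol(X)` is isomorphic to `S / Sol(S)` for a subgroup `S` of `Y` -/
def Kc (Y : Type) [Group Y] (X : Type) [Group X] : Prop :=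
  ∃ (S : Subgroup Y) (Z : Type) (_ : Group Z) (_ : Finite Z) (a : X →* Z) (b : S →* Z),
    Function.Surjective a ∧ Function.Surjective b ∧ Group.IsSolvable a.ker ∧
    Group.IsSolvable b.ker

/-- KCL: closure of the class -/
def T_KCL : Prop := ∀ (Y : Type) [Group Y] [Finite Y],
  (∀ (X' X : Type) [Group X'] [Finite X'] [Group X] [Finite X] (f : X' →* X),
    Function.Injective f → Kc Y X → Kc Y X') ∧
  (∀ (X X' : Type) [Group X'] [Finite X'] [Group X] [Finite X] (f : X →* X'),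
    Function.Surjective f → Group.IsSolvable f.ker → Kc Y X → Kc Y X') ∧
  (∀ (X : Type) [Group X] [Finite X] (f : X →* Y), Group.IsSolvable f.ker → Kc Y X)

/-- GDI: the condition on the indices for the groups in the class -/
def T_GDI : Prop := ∀ (e : ℝ), 1 ≤ e → ∀ (Y : Type) [Group Y] [Finite Y], Good e Y →
  ∀ (X : Type) [Group X] [Finite X], Kc Y X → ∀ T : Subgroup X,
    ((sol X).index : ℝ) ≤ (T.index : ℝ) ^ e * ((sol T).index : ℝ)

/-! ## Characters: `Ab U θ` is the set of the irreducible characters of `U` over `θ` -/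

section

variable {Γ : Type} [Group Γ] [Fintype Γ]

/-- the irreducible characters of `U` over `θ` -/
def Ab (U : Subgroup Γ) (θ : Γ → ℂ) : Set (Γ → ℂ) := {χ | χ ∈ IrrS U ∧ Over χ θ}

/-- their number -/
noncomputable def kk (U : Subgroup Γ) (θ : Γ → ℂ) : ℕ := (Ab U θ).ncard

/-- the sum of their degrees -/
noncomputable def dd (U : Subgroup Γ) (θ : Γ → ℂ) : ℝ := ∑ᶠ χ ∈ Ab U θ, (χ 1).re

end

/-- KKP: positivity -/
def T_KKP : Prop := ∀ (Γ : Type) [Group Γ] [Fintype Γ] (K U : Subgroup Γ), K ≤ U →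
  ∀ θ ∈ IrrS K, (Ab U θ).Finite ∧ 0 < kk U θ ∧ (kk U θ : ℝ) ≤ dd U θ

/-- BRG: types and the ambient group -/
def T_BRG : Prop := ∀ (Γ : Type) [Group Γ] [Fintype Γ] (N : Subgroup Γ), ∀ θ ∈ Irr N,
  ext0 N θ ∈ IrrS N ∧ acd N θ * kk ⊤ (ext0 N θ) = dd ⊤ (ext0 N θ)

/-- LCH: linear characters are irreducible -/
def T_LCH : Prop := ∀ (G : Type) [Group G] [Finite G] (l : G →* ℂˣ),
  (fun g => ((l g : ℂˣ) : ℂ)) ∈ Irr G

/-- CLF: the Clifford correspondence -/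
def T_CLF : Prop := ∀ (Γ : Type) [Group Γ] [Fintype Γ] (K U : Subgroup Γ), NIn K U →
  ∀ θ ∈ IrrS K, K ≤ stab U θ ∧ kk (stab U θ) θ = kk U θ ∧
    dd U θ = ((stab U θ).relIndex U : ℝ) * dd (stab U θ) θ

/-- SPL: characters over an intermediate normal subgroup -/
def T_SPL : Prop := ∀ (Γ : Type) [Group Γ] [Fintype Γ] (K M U : Subgroup Γ), K ≤ M → NIn M U →
  ∀ θ ∈ IrrS K, ∀ c : ℝ, (∀ φ ∈ IrrS M, Over φ θ → c * kk U φ ≤ dd U φ) →
  c * kk U θ ≤ dd U θ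

/-- DGL: degrees of characters over an invariant character -/
def T_DGL : Prop := ∀ (Γ : Type) [Group Γ] [Fintype Γ] (K M : Subgroup Γ), NIn K M →
  (∀ θ ∈ IrrS K, 0 < (θ 1).re) ∧
  ∀ θ ∈ IrrS K, ∀ φ ∈ IrrS M, Over φ θ → (θ 1).re ≤ (φ 1).re

/-- the group `Γ` is a central extension of `Y` with kernel `Z` -/
structure CExt {Γ : Type} [Group Γ] (Z : Subgroup Γ) {Y : Type} [Group Y] (q : Γ →* Y) :
    Prop where
  sur : Function.Surjective q
  ker : ∀ x, q x = 1 ↔ x ∈ Z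
  cen : ∀ z ∈ Z, ∀ g, z * g = g * z

/-- TRC: from invariant characters to central extensions (character triples) -/
def T_TRC : Prop := ∀ (Y : Type) [Group Y] [Finite Y] (c : ℝ), 0 ≤ c →
  (∀ (Γ : Type) [Group Γ] [Fintype Γ] (Z : Subgroup Γ) (q : Γ →* Y), CExt Z q →
    ∀ ν ∈ IrrS Z, c * kk ⊤ ν ≤ dd ⊤ ν) →
  ∀ (Γ : Type) [Group Γ] [Fintype Γ] (K U : Subgroup Γ), NIn K U → ∀ θ ∈ IrrS K,
    (∀ u ∈ U, cj u θ = θ) → ∀ q : U →* Y, Function.Surjective q →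
    (∀ x : U, q x = 1 ↔ (x : Γ) ∈ K) → c * (θ 1).re * kk U θ ≤ dd U θ

/-- GDA: the condition on the characters for the groups in the class -/
def T_GDA : Prop := ∀ (e : ℝ), 0 < e → ∀ (Y : Type) [Group Y] [Finite Y], Good e Y →
  ∀ (X : Type) [Group X] [Finite X], Kc Y X → sol X = ⊥ →
  ∀ (Γ : Type) [Group Γ] [Fintype Γ] (Z : Subgroup Γ) (q : Γ →* X), CExt Z q →
    ∀ ν ∈ IrrS Z, (Nat.card X : ℝ) ^ (1 / e) * kk ⊤ ν ≤ dd ⊤ ν

/-- STP: the group theory of the step from `K` to `M` -/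
def T_STP : Prop := ∀ (Γ : Type) [Group Γ] [Fintype Γ] (K U M T : Subgroup Γ)
  (Y : Type) [Group Y] [Finite Y] (q : U →* Y) (L : Subgroup Y), NIn K U →
  Function.Surjective q → (∀ x : U, q x = 1 ↔ (x : Γ) ∈ K) → L.Normal →
  (∀ a ∈ L, ∀ b ∈ L, a * b = b * a) → L ≠ ⊥ → M ≤ U → (∀ x : U, (x : Γ) ∈ M ↔ q x ∈ L) →
  M ≤ T → T ≤ U →
  ∃ (Y' : Type) (_ : Group Y') (_ : Finite Y') (q' : T →* Y') (Yt : Subgroup Y) (g : Yt →* Y'),
    Function.Surjective q' ∧ (∀ x : T, q' x = 1 ↔ (x : Γ) ∈ M) ∧ Function.Surjective g ∧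
    Group.IsSolvable g.ker ∧ Nat.card Y' < Nat.card Y ∧ T.relIndex U = Yt.index

/-! ## The Fitting subgroup -/

/-- FNL: the theorem of Fitting -/
def T_FNL : Prop := ∀ (G : Type) [Group G] [Finite G], Group.IsNilpotent (fit G) ∧
  frattini G ≤ fit G ∧ fit G ≤ sol G

/-- FPH: the Fitting subgroup is abelian modulo the Frattini subgroup -/
def T_FPH : Prop := ∀ (G : Type) [Group G] [Finite G], ∀ a ∈ fit G, ∀ b ∈ fit G,
  a * b * a⁻¹ * b⁻¹ ∈ frattini G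

/-- NPH: nilpotency modulo the Frattini subgroup -/
def T_NPH : Prop := ∀ (G : Type) [Group G] [Finite G] (N : Subgroup G), N.Normal →
  frattini G ≤ N → (∃ n, N.lowerCentralSeries n ≤ frattini G) →
  Group.IsNilpotent N

/-- CEN: the centraliser of the Fitting subgroup modulo the Frattini subgroup -/
def T_CEN : Prop := ∀ (G : Type) [Group G] [Finite G], ∀ g ∈ sol G,
  (∀ a ∈ fit G, g * a * g⁻¹ * a⁻¹ ∈ frattini G) → g ∈ fit G

/-- GAS: the theorem of Gaschütz -/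
def T_GAS : Prop := ∀ (G : Type) [Group G] [Finite G] (B : Subgroup G), B.Normal →
  frattini G ≤ B → B ≤ fit G → ∃ B' : Subgroup G, B'.Normal ∧ frattini G ≤ B' ∧ B' ≤ fit G ∧
    B ⊓ B' = frattini G ∧ B ⊔ B' = fit G

/-- DU0: the dual module -/
def T_DU0 : Prop := ∀ (R W : Type) [Group R] [Finite R] [AddCommGroup W] [Finite W]
  (κ : R →* AddMonoid.End W),
  ∃ (V : Type) (_ : AddCommGroup V) (_ : Finite V) (ρ : R →* AddMonoid.End V)
    (P : V → (Multiplicative W →* ℂˣ)), (CR κ ⊤ ⊤ → CR ρ ⊤ ⊤) ∧ Ck ρ ⊤ = Ck κ ⊤ ∧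
    ∀ r v, ρ r v = v ↔ ∀ w : W, P v (Multiplicative.ofAdd (κ r w)) =
      P v (Multiplicative.ofAdd w)

/-- DUA: the dual of the Fitting subgroup modulo the Frattini subgroup, as a module -/
def T_DUA : Prop := ∀ (G : Type) [Group G] [Finite G],
  ∃ (V : Type) (_ : AddCommGroup V) (_ : Finite V) (ρ : G →* AddMonoid.End V)
    (L : V → (fit G →* ℂˣ)), CR ρ ⊤ ⊤ ∧ (∀ g ∈ sol G, g ∈ Ck ρ ⊤ ↔ g ∈ fit G) ∧
    ∀ g v, ρ g v = v ↔ ∀ a b : fit G, (b : G) = g * a * g⁻¹ → L v b = L v a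

/-- GRP: group theory -/
def T_GRP : Prop := ∀ (G : Type) [Group G] [Finite G] (e : ℝ), 1 ≤ e →
  (∀ T' : Subgroup (G ⧸ sol G),
    ((sol (G ⧸ sol G)).index : ℝ) ≤ (T'.index : ℝ) ^ e * ((sol T').index : ℝ)) →
  ∀ T : Subgroup G, fit G ≤ T →
  ((fit G).relIndex (sol G) : ℝ) ≤ (T.relIndex (sol G) : ℝ) ^ e →
  ∀ (Y : Type) [Group Y] [Finite Y] (q : T →* Y), Function.Surjective q →
  (∀ x : T, q x = 1 ↔ (x : G) ∈ fit G) →
  ((fit G).index : ℝ) ≤ (T.index : ℝ) ^ e * ((sol Y).index : ℝ)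

/-- the reduction theorem -/
def T_RED : Prop := ∀ (e : ℝ), 91 / 25 ≤ e → ∀ (Y : Type) [Group Y] [Finite Y], Good e Y →
  ∀ (G : Type) [Group G] [Finite G] (f : G →* Y), Group.IsSolvable f.ker →
  ∃ θ ∈ Irr (fit G), θ 1 = 1 ∧ ((fit G).index : ℝ) ≤ acd (fit G) θ ^ e

end FI
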